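import Pool.Agent.Lib.MP_452a87_nt.SpecA

/-!
# Part A: generic Noether normalisation, integrality
-/

set_option autoImplicit false

namespace Pool.Agent.SMQ

open MvPolynomial

/-- Removing powers of the variable. -/
private theorem exists_const {R Ω : Type} [CommRing R] [Field Ω] (f : R →+* Ω) (w : Ω)
    (hw : w ≠ 0) (n : ℕ) : ∀ P : Polynomial R, P.natDegree ≤ n → P ≠ 0 →
    P.eval₂ f w = 0 → ∃ Q : Polynomial R, Q.coeff 0 ≠ 0 ∧ Q.eval₂ f w = 0 := by
  induction n with
  | zero =>
    intro P hP hP0 h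
    refine ⟨P, ?_, h⟩
    intro h0
    refine hP0 ?_
    rw [Polynomial.eq_C_of_natDegree_le_zero hP, h0, Polynomial.C_0]
  | succ n ih =>
    intro P hP hP0 h
    by_cases h0 : P.coeff 0 = 0
    · have hdiv : P.divX * Polynomial.X = P := by
        have h1 := P.divX_mul_X_add
        rw [h0, Polynomial.C_0, add_zero] at h1
        exact h1
      have hne : P.divX ≠ 0 := by
        intro h2
        rw [h2, zero_mul] at hdiv
        exact hP0 hdiv.symm
      refine ih P.divX ?_ hne ?_
      · rw [Polynomial.natDegree_divX_eq_natDegree_tsub_one]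
        omega
      · rw [← hdiv, Polynomial.eval₂_mul, Polynomial.eval₂_X] at h
        exact (mul_eq_zero.mp h).resolve_right hw
    · exact ⟨P, h0, h⟩

private theorem alg_mono {Ω : Type} [Field Ω] [CharZero Ω] {E E' : IntermediateField ℚ Ω}
    (h : E ≤ E') {y : Ω} (hy : IsAlgebraic E y) : IsAlgebraic E' y := by
  obtain ⟨p, hp0, hp⟩ := hy
  refine ⟨p.map (IntermediateField.inclusion h : E →+* E'), ?_, ?_⟩
  · intro h1
    refine hp0 (Polynomial.map_injective _ (IntermediateField.inclusion h : E →+* E').injective ?_)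
    rw [h1, Polynomial.map_zero]
  · rw [Polynomial.aeval_def, Polynomial.eval₂_map]
    exact hp

/-- A maximal algebraically independent subfamily. -/
private theorem exists_basis {ι 𝔽 : Type} [Field 𝔽] [CharZero 𝔽] (η : ι → 𝔽) (ρ : ℕ)
    (hb : ∀ (e : ℕ) (b : Fin e → ι), AlgebraicIndependent ℚ (η ∘ b) → e + 1 ≤ ρ) :
    ∃ (e : ℕ) (b : Fin e → ι), e + 1 ≤ ρ ∧ AlgebraicIndependent ℚ (η ∘ b) ∧
      ∀ i, IsAlgebraic (IntermediateField.adjoin ℚ (Set.range (η ∘ b))) (η i) := by
  classical
  let Pr : ℕ → Prop := fun e => ∃ b : Fin e → ι, AlgebraicIndependent ℚ (η ∘ b)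
  have h0 : Pr 0 := ⟨Fin.elim0, algebraicIndependent_empty_type⟩
  have hex : ∃ e, Pr e ∧ ¬ Pr (e + 1) := by
    by_contra hcon
    push Not at hcon
    have hall : ∀ e, Pr e := fun e => by
      induction e with
      | zero => exact h0
      | succ e ih => exact hcon e ih
    obtain ⟨b, hb'⟩ := hall ρ
    have := hb ρ b hb'
    omega
  obtain ⟨e, ⟨b, hbI⟩, hne⟩ := hex
  refine ⟨e, b, hb e b hbI, hbI, fun i => ?_⟩
  by_contra hi
  refine hne ⟨fun k => (finSuccEquiv e k).elim i b, ?_⟩
  have htr : Transcendental (Algebra.adjoin ℚ (Set.range (η ∘ b))) (η i) := by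
    intro halg
    refine hi ?_
    obtain ⟨p, hp0, hp⟩ := halg
    have hle : Algebra.adjoin ℚ (Set.range (η ∘ b)) ≤
        (IntermediateField.adjoin ℚ (Set.range (η ∘ b))).toSubalgebra :=
      IntermediateField.algebra_adjoin_le_adjoin _ _
    refine ⟨p.map (Subalgebra.inclusion hle).toRingHom, ?_, ?_⟩
    · intro h1
      refine hp0 (Polynomial.map_injective _ (Subalgebra.inclusion_injective hle) ?_)
      rw [h1]
      exact (Polynomial.map_zero _).symm
    · rw [Polynomial.aeval_def, Polynomial.eval₂_map]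
      exact hp
  have h1 := (hbI.option_iff_transcendental (η i)).mpr htr
  have h2 := h1.comp (finSuccEquiv e) (finSuccEquiv e).injective
  have h3 : η ∘ (fun k => (finSuccEquiv e k).elim i b) =
      (fun o : Option (Fin e) => o.elim (η i) (η ∘ b)) ∘ (finSuccEquiv e) := by
    funext k
    simp only [Function.comp]
    cases finSuccEquiv e k <;> rfl
  rw [h3]
  exact h2

theorem pA1v (hTrI : S_TrI) (hTrU : S_TrU) : S_A1v := by
  classical
  intro ι Ω _ _ _ _ ρ x u hu hx j
  obtain ⟨r, hrρ, hr⟩ := hx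
  by_contra hj
  obtain ⟨R, hR⟩ : ∃ R, R = Algebra.adjoin (IntermediateField.adjoin ℚ (Set.range u))
    (Set.range (psi u x)) := ⟨_, rfl⟩
  rw [← hR] at hj
  -- a valuation ring which contains `R` but not `x j`
  have hnot : x j ∉ (integralClosure (Subring.closure (R : Set Ω)) Ω).toSubring := by
    intro h
    have h1 : IsIntegral (Subring.closure (R : Set Ω)) (x j) := h
    have hmem : ∀ y : Subring.closure (R : Set Ω),
        (Subring.closure (R : Set Ω)).subtype y ∈ R := by
      intro y
      have h2 : Subring.closure (R : Set Ω) ≤ R.toSubring := Subring.closure_le.mpr fun _ hz => hz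
      exact h2 y.2
    refine hj ?_
    have h3 := IsIntegral.map_of_comp_eq
      ((Subring.closure (R : Set Ω)).subtype.codRestrict R hmem) (RingHom.id Ω) rfl h1
    exact h3
  rw [← iInf_valuationSubring_superset, Subring.mem_iInf] at hnot
  push Not at hnot
  obtain ⟨⟨V, hRV⟩, hjV⟩ := hnot
  have hjV' : x j ∉ V := hjV
  have hRV' : ∀ y ∈ R, y ∈ V := fun y hy => hRV hy
  obtain ⟨j0, -, hj0⟩ := Finset.exists_max_image Finset.univ (fun i => V.valuation (x i))
    ⟨j, Finset.mem_univ j⟩
  have hj0V : x j0 ∉ V := by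
    intro h
    refine hjV' ?_
    rw [← V.valuation_le_one_iff] at h ⊢
    exact (hj0 j (Finset.mem_univ j)).trans h
  have hj00 : x j0 ≠ 0 := by
    intro h
    exact hj0V (h ▸ zero_mem V)
  have hwV : (x j0)⁻¹ ∈ V := (V.mem_or_inv_mem (x j0)).resolve_left hj0V
  have hyV : ∀ i, x i * (x j0)⁻¹ ∈ V := by
    intro i
    rw [← V.valuation_le_one_iff, map_mul, map_inv₀]
    have h0 : V.valuation (x j0) ≠ 0 := (Valuation.ne_zero_iff _).mpr hj00
    rw [← div_eq_mul_inv]
    exact (div_le_one₀ (zero_lt_iff.mpr h0)).mpr (hj0 i (Finset.mem_univ i))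
  have hkV : ∀ y ∈ IntermediateField.adjoin ℚ (Set.range u), y ∈ V := by
    intro y hy
    refine hRV' y ?_
    rw [hR]
    exact (Algebra.adjoin _ (Set.range (psi u x))).algebraMap_mem
      (⟨y, hy⟩ : IntermediateField.adjoin ℚ (Set.range u))
  have huV : ∀ p, u p ∈ V := fun p =>
    hkV _ (IntermediateField.subset_adjoin ℚ _ ⟨p, rfl⟩)
  have hψV : ∀ i, psi u x i ∈ V := fun i => by
    refine hRV' _ ?_
    rw [hR]
    exact Algebra.subset_adjoin ⟨i, rfl⟩
  -- residues
  obtain ⟨𝔽, _, res, hres⟩ : ∃ (𝔽 : Type) (_ : Field 𝔽) (res : V →+* 𝔽),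
      ∀ v : V, ¬ IsUnit v → res v = 0 := by
    refine ⟨IsLocalRing.ResidueField V, inferInstance, IsLocalRing.residue V, fun v hv => ?_⟩
    rw [IsLocalRing.residue_eq_zero_iff, IsLocalRing.mem_maximalIdeal, mem_nonunits_iff]
    exact hv
  have hchar : CharZero 𝔽 := by
    refine charZero_of_inj_zero fun n hn => ?_
    by_contra hn0
    have hnΩ : (n : Ω) ≠ 0 := Nat.cast_ne_zero.mpr hn0
    have hninv : ((n : Ω))⁻¹ ∈ V := hkV _ (inv_mem (natCast_mem _ n))
    have h1 : (n : V) * ⟨((n : Ω))⁻¹, hninv⟩ = 1 := by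
      apply Subtype.ext
      change ((n : V) : Ω) * ((n : Ω))⁻¹ = 1
      rw [show ((n : V) : Ω) = (n : Ω) from map_natCast V.subtype n, mul_inv_cancel₀ hnΩ]
    have h2 := congrArg res h1
    rw [map_mul, map_natCast, hn, zero_mul, map_one] at h2
    exact zero_ne_one h2
  let w : Ω := (x j0)⁻¹
  have hw0 : w ≠ 0 := inv_ne_zero hj00
  let wV : V := ⟨w, hwV⟩
  let yV : ι → V := fun i => ⟨x i * w, hyV i⟩
  let uV : Fin ρ × ι → V := fun p => ⟨u p, huV p⟩
  have hresw : res wV = 0 := by
    refine hres wV fun h => ?_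
    obtain ⟨v, hv⟩ := h.exists_right_inv
    have h1 : w * (v : Ω) = 1 := congrArg Subtype.val hv
    have h2 : (v : Ω) = x j0 := by
      have h3 : x j0 * w = 1 := mul_inv_cancel₀ hj00
      calc (v : Ω) = x j0 * w * v := by rw [h3, one_mul]
        _ = x j0 * (w * v) := by ring
        _ = x j0 := by rw [h1, mul_one]
    exact hj0V (h2 ▸ v.2)
  let η : ι → 𝔽 := fun i => res (yV i)
  let ub : Fin ρ × ι → 𝔽 := fun p => res (uV p)
  have hηj0 : η j0 = 1 := by
    have h1 : yV j0 = 1 := Subtype.ext (mul_inv_cancel₀ hj00)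
    change res (yV j0) = 1
    rw [h1, map_one]
  have hmapint : ∀ (σ S T : Type) [CommRing S] [CommRing T] (h : S →+* T) (v : σ → S)
      (P : MvPolynomial σ ℤ), h (aeval v P) = aeval (fun i => h (v i)) P := by
    intro σ S T _ _ h v P
    induction P using MvPolynomial.induction_on with
    | C a => simp
    | add p q hp hq => rw [map_add, map_add, map_add, hp, hq]
    | mul_X p i hp => rw [map_mul, map_mul, map_mul, hp, aeval_X, aeval_X]
  have halgZ : Algebra.IsAlgebraic ℤ ℚ := IsLocalization.isAlgebraic ℚ (nonZeroDivisors ℤ)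
  -- (a)
  have hA : ∀ (e : ℕ) (b : Fin e → ι), AlgebraicIndependent ℚ (η ∘ b) → e + 1 ≤ ρ := by
    intro e b hb
    have hbZ : AlgebraicIndependent ℤ (η ∘ b) :=
      hb.restrictScalars (K := ℚ) (algebraMap ℤ ℚ).injective_int
    have hI : AlgebraicIndependent ℤ (ev w (fun i => x (b i) * w)) := by
      rw [algebraicIndependent_iff]
      intro G hG
      by_contra hG0
      rw [← eval_opt] at hG
      have hG' : optionEquivLeft ℤ (Fin e) G ≠ 0 := by
        intro h
        exact hG0 ((optionEquivLeft ℤ (Fin e)).injective (by rw [h, map_zero]))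
      obtain ⟨Q, hQ0, hQ⟩ := exists_const _ w hw0 _ _ le_rfl hG' hG
      have h1 : Polynomial.eval₂ (aeval (R := ℤ) (fun i => yV (b i))).toRingHom wV Q = 0 := by
        apply V.subtype_injective
        rw [Polynomial.hom_eval₂, map_zero]
        have h2 : (V.subtype).comp (aeval (R := ℤ) (fun i => yV (b i))).toRingHom =
            (aeval (R := ℤ) (fun i => x (b i) * w)).toRingHom := by
          refine RingHom.ext fun P => ?_
          exact hmapint _ _ _ V.subtype (fun i => yV (b i)) P
        rw [h2]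
        exact hQ
      have h3 := congrArg res h1
      rw [Polynomial.hom_eval₂, hresw, map_zero, Polynomial.eval₂_at_zero] at h3
      have h4 : aeval (η ∘ b) (Q.coeff 0) = 0 := by
        rw [← h3]
        exact (hmapint _ _ _ res (fun i => yV (b i)) (Q.coeff 0)).symm
      exact hQ0 ((algebraicIndependent_iff.mp hbZ) _ h4)
    have hIQ : AlgebraicIndependent ℚ (ev w (fun i => x (b i) * w)) := hI.extendScalars ℚ
    have hI' := hIQ.comp (finSuccEquiv e) (finSuccEquiv e).injective
    have hmem : ∀ k, (ev w (fun i => x (b i) * w) ∘ (finSuccEquiv e)) k ∈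
        IntermediateField.adjoin ℚ (Set.range x) := by
      intro k
      have hw : w ∈ IntermediateField.adjoin ℚ (Set.range x) :=
        inv_mem (IntermediateField.subset_adjoin ℚ _ ⟨j0, rfl⟩)
      rw [Function.comp_apply]
      cases finSuccEquiv e k with
      | none => exact hw
      | some i => exact mul_mem (IntermediateField.subset_adjoin ℚ _ ⟨b i, rfl⟩) hw
    have h5 := (hTrI ι Ω x r (e + 1) _ hr hI' (fun k =>
      isAlgebraic_algebraMap (⟨_, hmem k⟩ : IntermediateField.adjoin ℚ (Set.range x)))).1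
    omega
  obtain ⟨e, b, heρ, hbI, hbA⟩ := exists_basis η ρ hA
  -- (b)
  have hubI : AlgebraicIndependent ℚ ub := by
    have h1 : AlgebraicIndependent ℤ u :=
      hu.restrictScalars (K := ℚ) (algebraMap ℤ ℚ).injective_int
    have h2 : AlgebraicIndependent ℤ ub := by
      rw [algebraicIndependent_iff]
      intro G hG
      by_contra hG0
      have h3 : aeval u G ≠ 0 := fun h => hG0 ((algebraicIndependent_iff.mp h1) _ h)
      have h4 : aeval u G ∈ IntermediateField.adjoin ℚ (Set.range u) := by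
        have h5 : ∀ P : MvPolynomial (Fin ρ × ι) ℤ,
            aeval u P ∈ IntermediateField.adjoin ℚ (Set.range u) := by
          intro P
          induction P using MvPolynomial.induction_on with
          | C a =>
            rw [aeval_C]
            exact intCast_mem _ a
          | add p q hp hq => rw [map_add]; exact add_mem hp hq
          | mul_X p i hp =>
            rw [map_mul, aeval_X]
            exact mul_mem hp (IntermediateField.subset_adjoin ℚ _ ⟨i, rfl⟩)
        exact h5 G
      have h6 : (aeval u G)⁻¹ ∈ V := hkV _ (inv_mem h4)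
      have h7 : aeval uV G * (⟨(aeval u G)⁻¹, h6⟩ : V) = 1 := by
        apply Subtype.ext
        have h8 := hmapint _ _ _ V.subtype uV G
        change V.subtype (aeval uV G) * (aeval u G)⁻¹ = 1
        rw [h8]
        exact mul_inv_cancel₀ h3
      have h9 := congrArg res h7
      have h10 : res (aeval uV G) = 0 := by
        rw [hmapint]
        exact hG
      rw [map_mul, h10, zero_mul, map_one] at h9
      exact zero_ne_one h9
    exact h2.extendScalars ℚ
  have hlin : ∀ i, ∑ k, ub (i, k) * η k = 0 := by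
    intro i
    have h1 : ∑ k, uV (i, k) * yV k = ⟨psi u x i, hψV i⟩ * wV := by
      apply V.subtype_injective
      rw [map_sum, map_mul]
      change ∑ k, V.subtype (uV (i, k) * yV k) = (∑ k, u (i, k) * x k) * w
      rw [Finset.sum_mul]
      refine Finset.sum_congr rfl fun k _ => ?_
      change u (i, k) * (x k * w) = u (i, k) * x k * w
      ring
    have h2 := congrArg res h1
    rw [map_mul, hresw, mul_zero, map_sum] at h2
    rw [← h2]
    refine Finset.sum_congr rfl fun k _ => ?_
    rw [map_mul]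
  -- the count
  let κ := (Fin ρ × {k : ι // k ≠ j0}) ⊕ Fin e
  let z : κ → 𝔽 := Sum.elim (fun p => ub (p.1, p.2)) (η ∘ b)
  let K := IntermediateField.adjoin ℚ (Set.range z)
  have hsub : IntermediateField.adjoin ℚ (Set.range (η ∘ b)) ≤ K := by
    refine IntermediateField.adjoin.mono _ _ _ ?_
    rintro _ ⟨i, rfl⟩
    exact ⟨Sum.inr i, rfl⟩
  have hηalg : ∀ i, η i ∈ algebraicClosure K 𝔽 := fun i =>
    mem_algebraicClosure_iff.mpr (alg_mono hsub (hbA i))
  have hualg1 : ∀ i (k : ι), k ≠ j0 → ub (i, k) ∈ algebraicClosure K 𝔽 := by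
    intro i k hk
    refine mem_algebraicClosure_iff.mpr ?_
    exact isAlgebraic_algebraMap
      (⟨ub (i, k), IntermediateField.subset_adjoin ℚ _ ⟨Sum.inl (i, ⟨k, hk⟩), rfl⟩⟩ : K)
  have hualg : ∀ p, IsAlgebraic K (ub p) := by
    rintro ⟨i, k⟩
    refine mem_algebraicClosure_iff.mp ?_
    by_cases hk : k = j0
    · rw [hk]
      have h1 := hlin i
      rw [← Finset.add_sum_erase _ _ (Finset.mem_univ j0), hηj0, mul_one] at h1
      rw [eq_neg_of_add_eq_zero_left h1]
      refine neg_mem (sum_mem fun l hl => ?_)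
      exact mul_mem (hualg1 i l (Finset.ne_of_mem_erase hl)) (hηalg l)
    · exact hualg1 i k hk
  have hTru : Tr ub (Fintype.card (Fin ρ × ι)) := by
    let E := (Fintype.equivFin (Fin ρ × ι)).symm
    refine ⟨E, hubI.comp E E.injective, fun p => ?_⟩
    refine isAlgebraic_algebraMap
      (⟨ub p, IntermediateField.subset_adjoin ℚ _ ⟨E.symm p, ?_⟩⟩ :
        IntermediateField.adjoin ℚ (Set.range (ub ∘ E)))
    rw [Function.comp_apply, Equiv.apply_symm_apply]
  have hcount := hTrU (Fin ρ × ι) κ 𝔽 ub z _ hTru hualg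
  rw [Nat.card_eq_fintype_card] at hcount
  have hc1 : Fintype.card κ = ρ * (Fintype.card ι - 1) + e := by
    rw [Fintype.card_sum, Fintype.card_prod, Fintype.card_fin, Fintype.card_fin]
    congr 2
    rw [Fintype.card_subtype_compl, Fintype.card_subtype_eq]
  have hc2 : Fintype.card (Fin ρ × ι) = ρ * Fintype.card ι := by
    rw [Fintype.card_prod, Fintype.card_fin]
  rw [hc1, hc2] at hcount
  have hpos : 0 < Fintype.card ι := Fintype.card_pos_iff.mpr ⟨j⟩
  obtain ⟨m, hm⟩ : ∃ m, Fintype.card ι = m + 1 := ⟨Fintype.card ι - 1, by omega⟩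
  rw [hm, Nat.add_sub_cancel, Nat.mul_add, Nat.mul_one] at hcount
  omega

end Pool.Agent.SMQ
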