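import Pool.Agent.Lib.MP_452a87_nt.A.Aux12

/-!
# Part A: a proper specialization drops the transcendence degree (helper12)
-/

set_option autoImplicit false

namespace Pool.Agent.SMQ

open MvPolynomial

namespace A2Aux

/-- Removing powers of the variable (as in `A1v.lean`). -/
theorem exists_const {R Ω : Type} [CommRing R] [Field Ω] (f : R →+* Ω) (w : Ω)
    (hw : w ≠ 0) (n : ℕ) : ∀ P : Polynomial R, P.natDegree ≤ n → P ≠ 0 →
    P.eval₂ f w = 0 → ∃ Q : Polynomial R, Q.coeff 0 ≠ 0 ∧ Q.eval₂ f w = 0 := by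
  induction n with
  | zero =>
    intro P hP hP0 h
    refine ⟨P, ?_, h⟩
    intro h0
    refine hP0 ?_
    rw [Polynomial.eq_C_of_natDegree_le_zero hP, h0, Polynomial.C_0]
  | succ n ih =>
    intro P hP hP0 h
    by_cases h0 : P.coeff 0 = 0
    · have hdiv : P.divX * Polynomial.X = P := by
        have h1 := P.divX_mul_X_add
        rw [h0, Polynomial.C_0, add_zero] at h1
        exact h1
      have hne : P.divX ≠ 0 := by
        intro h2
        rw [h2, zero_mul] at hdiv
        exact hP0 hdiv.symm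
      refine ih P.divX ?_ hne ?_
      · rw [Polynomial.natDegree_divX_eq_natDegree_tsub_one]
        omega
      · rw [← hdiv, Polynomial.eval₂_mul, Polynomial.eval₂_X] at h
        exact (mul_eq_zero.mp h).resolve_right hw
    · exact ⟨P, h0, h⟩

theorem sub_eval {ι κ Ω : Type} [Field Ω] (x : ι → Ω) (b : κ → ι) (P : MvPolynomial ι ℤ)
    (Q : Polynomial (MvPolynomial κ ℤ)) :
    aeval x (Q.eval₂ (rename b : MvPolynomial κ ℤ →ₐ[ℤ] MvPolynomial ι ℤ).toRingHom P) =
      Q.eval₂ (aeval (R := ℤ) (x ∘ b)).toRingHom (aeval x P) := by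
  have h := Polynomial.hom_eval₂ Q (rename b : MvPolynomial κ ℤ →ₐ[ℤ] MvPolynomial ι ℤ).toRingHom
    (aeval (R := ℤ) x).toRingHom P
  have h2 : (aeval (R := ℤ) x).toRingHom.comp
      (rename b : MvPolynomial κ ℤ →ₐ[ℤ] MvPolynomial ι ℤ).toRingHom =
        (aeval (R := ℤ) (x ∘ b)).toRingHom := by
    refine RingHom.ext fun G => ?_
    exact aeval_rename b x G
  rw [h2] at h
  exact h

end A2Aux

theorem pA2 (hTrI : S_TrI) : S_A2 := by
  intro ι Ω Ω' _ _ _ _ _ x x' r r' P hs hr hr' hP hP'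
  have halgZ : Algebra.IsAlgebraic ℤ ℚ := IsLocalization.isAlgebraic ℚ (nonZeroDivisors ℤ)
  obtain ⟨b, hb, -⟩ := hr'
  have hbZ : AlgebraicIndependent ℤ (x' ∘ b) :=
    hb.restrictScalars (K := ℚ) (algebraMap ℤ ℚ).injective_int
  have hI : AlgebraicIndependent ℤ (ev (aeval x P) (x ∘ b)) := by
    rw [algebraicIndependent_iff]
    intro G hG
    by_contra hG0
    rw [← eval_opt] at hG
    have hG' : optionEquivLeft ℤ (Fin r') G ≠ 0 := by
      intro h
      exact hG0 ((optionEquivLeft ℤ (Fin r')).injective (by rw [h, map_zero]))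
    obtain ⟨Q, hQ0, hQ⟩ := A2Aux.exists_const _ _ hP _ _ le_rfl hG' hG
    rw [← A2Aux.sub_eval] at hQ
    have h1 := hs _ hQ
    rw [A2Aux.sub_eval, hP', Polynomial.eval₂_at_zero] at h1
    exact hQ0 ((algebraicIndependent_iff.mp hbZ) _ h1)
  have hIQ : AlgebraicIndependent ℚ (ev (aeval x P) (x ∘ b)) := hI.extendScalars ℚ
  have hI' := hIQ.comp (finSuccEquiv r') (finSuccEquiv r').injective
  have hx : ∀ G : MvPolynomial ι ℤ, aeval x G ∈ IntermediateField.adjoin ℚ (Set.range x) := by
    intro G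
    induction G using MvPolynomial.induction_on with
    | C a =>
      rw [aeval_C]
      exact intCast_mem _ a
    | add p q hp hq => rw [map_add]; exact add_mem hp hq
    | mul_X p i hp =>
      rw [map_mul, aeval_X]
      exact mul_mem hp (IntermediateField.subset_adjoin ℚ _ ⟨i, rfl⟩)
  have hmem : ∀ k, (ev (aeval x P) (x ∘ b) ∘ (finSuccEquiv r')) k ∈
      IntermediateField.adjoin ℚ (Set.range x) := by
    intro k
    rw [Function.comp_apply]
    cases finSuccEquiv r' k with
    | none => exact hx P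
    | some i => exact IntermediateField.subset_adjoin ℚ _ ⟨b i, rfl⟩
  have h5 := (hTrI ι Ω x r (r' + 1) _ hr hI' (fun k =>
    isAlgebraic_algebraMap (⟨_, hmem k⟩ : IntermediateField.adjoin ℚ (Set.range x)))).1
  omega

end Pool.Agent.SMQ
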