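import Pool.Agent.Lib.MP_452a87_nt.SpecA

/-!
# Part A: the algebraic proposition, first part (helper12)
-/

set_option autoImplicit false

namespace Pool.Agent.SMQ

open MvPolynomial

namespace AlgAux

theorem td_aeval {σ τ : Type} (g : σ → MvPolynomial τ ℤ) (hg : ∀ i, (g i).totalDegree ≤ 1)
    (P : MvPolynomial σ ℤ) : (aeval g P).totalDegree ≤ P.totalDegree := by
  rw [aeval_def, eval₂_eq]
  refine (totalDegree_finsetSum _ _).trans (Finset.sup_le fun d hd => ?_)
  refine (totalDegree_mul _ _).trans ?_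
  have h1 : ((algebraMap ℤ (MvPolynomial τ ℤ)) (coeff d P)).totalDegree = 0 :=
    totalDegree_C _
  rw [h1, zero_add]
  refine (totalDegree_finsetProd _ _).trans ?_
  refine le_trans (Finset.sum_le_sum fun i _ => ?_) (le_totalDegree hd)
  refine (totalDegree_pow _ _).trans ?_
  calc d i * (g i).totalDegree ≤ d i * 1 := Nat.mul_le_mul_left _ (hg i)
    _ = d i := Nat.mul_one _

theorem td_e0 {β : Type} (E : MvPolynomial (Option β) ℤ) :
    (e0 E).totalDegree ≤ E.totalDegree := by
  refine td_aeval _ (fun i => ?_) E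
  cases i with
  | none => simp
  | some b => simp

theorem td_rename {σ τ : Type} {f : σ → τ} (hf : Function.Injective f) (P : MvPolynomial σ ℤ) :
    P.totalDegree ≤ (rename f P).totalDegree := by
  have h := td_aeval (fun i => open Classical in
      if h : i ∈ Set.range f then X ((Equiv.ofInjective f hf).symm ⟨i, h⟩) else 0)
    (fun i => by
      split_ifs
      · simp
      · simp) (rename f P)
  have h2 : aeval (fun i => open Classical in
      if h : i ∈ Set.range f then (X ((Equiv.ofInjective f hf).symm ⟨i, h⟩) : MvPolynomial σ ℤ)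
        else 0) (rename f P) = P := by
    rw [aeval_rename]
    have h3 : ((fun i => open Classical in
      if h : i ∈ Set.range f then (X ((Equiv.ofInjective f hf).symm ⟨i, h⟩) : MvPolynomial σ ℤ)
        else 0) ∘ f) = X := by
      funext i
      rw [Function.comp_apply, dif_pos (Set.mem_range_self i)]
      congr 1
      exact (Equiv.ofInjective f hf).symm_apply_apply i
    rw [h3, aeval_X_left]
    rfl
  rwa [h2] at h

end AlgAux

theorem pAlg (hP6 : S_P6) : S_Alg := by
  intro ι _ _ ρ ξ f E hξ hf hE hu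
  obtain ⟨a, ha, hla⟩ := hP6 ι ρ ξ f E hξ hf hE hu
  have h0 : (renameEquiv ℤ (sepIdx ι ρ) (e0 E)).totalDegree ≤ E.totalDegree := by
    rw [totalDegree_renameEquiv]
    exact AlgAux.td_e0 E
  have hs : sep ι ρ (e0 E) = optionEquivLeft ℤ (BV ι ρ) (renameEquiv ℤ (sepIdx ι ρ) (e0 E)) := rfl
  refine ⟨(sep ι ρ (e0 E)).natDegree, a, ha, ?_, ?_, fun u t' => ?_⟩
  · rw [hs, natDegree_optionEquivLeft]
    exact (degreeOf_le_totalDegree _ _).trans h0
  · refine (AlgAux.td_rename (Sum.inl_injective (β := Fin ρ)) a).trans ?_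
    rw [← hla, Polynomial.leadingCoeff, hs]
    exact (totalDegree_coeff_optionEquivLeft_le _ _ _ _).trans h0
  · refine ⟨(sep ι ρ (e0 E)).map (aeval (R := ℤ) (Sum.elim u t')).toRingHom,
      Polynomial.natDegree_map_le, ?_, fun z => ?_⟩
    · rw [Polynomial.coeff_map]
      have h1 : (sep ι ρ (e0 E)).coeff (sep ι ρ (e0 E)).natDegree = rename Sum.inl a := hla
      rw [h1]
      exact (aeval_rename _ _ _).trans (by rw [Sum.elim_comp_inl])
    · rw [Polynomial.eval_map, ← aeval_e0]
      exact eval_sep u (Fin.cons z t' : Fin (ρ + 1) → ℂ) (e0 E)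

end Pool.Agent.SMQ
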