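import Pool.Agent.Lib.MP_452a87_nt.SpecA

/-!
# Part A: the matroid of algebraic independence (helper12)
-/

set_option autoImplicit false

namespace Pool.Agent.SMQ.Aux12

open MvPolynomial

/-- the matroid of algebraic independence -/
noncomputable abbrev Mt (Ω : Type) [Field Ω] [CharZero Ω] : Matroid Ω :=
  AlgebraicIndependent.matroid ℚ Ω

section

variable {Ω : Type} [Field Ω] [CharZero Ω]

open scoped IntermediateField.algebraAdjoinAdjoin in
theorem alg_iff {S : Set Ω} {y : Ω} :
    IsAlgebraic (IntermediateField.adjoin ℚ S) y ↔ y ∈ (Mt Ω).closure S := by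
  rw [AlgebraicIndependent.matroid_closure_eq, SetLike.mem_coe, Subalgebra.mem_algebraicClosure,
    IsFractionRing.isAlgebraic_iff (Algebra.adjoin ℚ S) (IntermediateField.adjoin ℚ S) Ω]

theorem mem_cl {S : Set Ω} {y : Ω} (h : y ∈ S) : y ∈ (Mt Ω).closure S :=
  (Mt Ω).mem_closure_of_mem h (Set.subset_univ S)

theorem cl_sub {S T : Set Ω} (h : S ⊆ (Mt Ω).closure T) : (Mt Ω).closure S ⊆ (Mt Ω).closure T :=
  Matroid.closure_subset_closure_of_subset_closure h

theorem ind_range {τ : Type} {z : τ → Ω} (hz : AlgebraicIndependent ℚ z) :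
    (Mt Ω).Indep (Set.range z) :=
  AlgebraicIndependent.matroid_indep_iff.2 hz.coe_range

theorem enc_range {e : ℕ} {z : Fin e → Ω} (hz : Function.Injective z) :
    (Set.range z).encard = e := by
  rw [← Set.image_univ, hz.encard_image, Set.encard_univ, ENat.card_eq_coe_natCard, Nat.card_fin]

theorem card_le {e : ℕ} {z : Fin e → Ω} (hz : AlgebraicIndependent ℚ z) {S : Set Ω}
    (h : ∀ i, z i ∈ (Mt Ω).closure S) : (e : ℕ∞) ≤ (Mt Ω).eRk S := by
  have h1 := (ind_range hz).encard_le_eRk_of_subset (Set.range_subset_iff.2 h)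
  rwa [Matroid.eRk_closure_eq, enc_range hz.injective] at h1

theorem Tr.rk {ι : Type} {x : ι → Ω} {r : ℕ} (h : Tr x r) : (Mt Ω).eRk (Set.range x) = r := by
  obtain ⟨b, hb, hx⟩ := h
  have h1 : (Mt Ω).closure (Set.range (x ∘ b)) = (Mt Ω).closure (Set.range x) := by
    refine Set.Subset.antisymm (cl_sub ?_) (cl_sub ?_)
    · rintro _ ⟨i, rfl⟩
      exact mem_cl ⟨b i, rfl⟩
    · rintro _ ⟨i, rfl⟩
      exact alg_iff.1 (hx i)
  rw [← Matroid.eRk_closure_eq, ← h1, Matroid.eRk_closure_eq, (ind_range hb).eRk_eq_encard,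
    enc_range hb.injective]

theorem exists_Tr {ι : Type} [Finite ι] (x : ι → Ω) : ∃ r, Tr x r := by
  obtain ⟨B, hB⟩ := (Mt Ω).exists_isBasis (Set.range x) (Set.subset_univ _)
  obtain ⟨h1, h2, h3⟩ := AlgebraicIndependent.matroid_isBasis_iff.1 hB
  have hfin : Finite B := (Set.finite_range x).subset h2
  obtain ⟨n, ⟨e⟩⟩ := Finite.exists_equiv_fin B
  have h4 : ∀ k : Fin n, ∃ i, x i = (e.symm k : Ω) := fun k => h2 (e.symm k).2
  choose b hb using h4
  have h5 : x ∘ b = fun k => ((e.symm k : B) : Ω) := funext hb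
  refine ⟨n, b, ?_, fun i => ?_⟩
  · rw [h5]
    exact AlgebraicIndependent.comp h1 _ e.symm.injective
  · rw [alg_iff]
    have h6 : Set.range (x ∘ b) = B := by
      rw [h5]
      ext y
      constructor
      · rintro ⟨k, rfl⟩
        exact (e.symm k).2
      · intro hy
        exact ⟨e ⟨y, hy⟩, by simp⟩
    rw [h6, hB.closure_eq_closure]
    exact mem_cl ⟨i, rfl⟩

/-- a family whose range has the rank of the number of indices is independent -/
theorem ind_of_rk {τ : Type} [Finite τ] {z : τ → Ω}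
    (h : (Nat.card τ : ℕ∞) ≤ (Mt Ω).eRk (Set.range z)) : AlgebraicIndependent ℚ z := by
  have hfin : (Set.range z).Finite := Set.finite_range z
  have h1 : (Set.range z).encard ≤ (Nat.card τ : ℕ∞) := by
    rw [← Set.image_univ]
    refine (Set.encard_image_le _ _).trans ?_
    rw [Set.encard_univ, ENat.card_eq_coe_natCard]
  obtain ⟨I, hI⟩ := (Mt Ω).exists_isBasis (Set.range z) (Set.subset_univ _)
  have h2 : I = Set.range z := by
    refine (hfin.subset hI.subset).eq_of_subset_of_encard_le hI.subset ?_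
    rw [hI.encard_eq_eRk]
    exact h1.trans h
  have h3 : (Mt Ω).Indep (Set.range z) := h2 ▸ hI.indep
  have h4 : (Set.range z).encard = (Nat.card τ : ℕ∞) :=
    le_antisymm h1 (h3.eRk_eq_encard ▸ h)
  have h5 : Function.Injective z := by
    have h6 : (z '' Set.univ).encard = (Set.univ : Set τ).encard := by
      rw [Set.image_univ, h4, Set.encard_univ, ENat.card_eq_coe_natCard]
    have h7 := (Set.finite_univ (α := τ)).injOn_of_encard_image_eq h6
    exact fun a b hab => h7 (Set.mem_univ a) (Set.mem_univ b) hab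
  exact (algebraicIndependent_subtype_range h5).1 (AlgebraicIndependent.matroid_indep_iff.1 h3)

end

end Pool.Agent.SMQ.Aux12
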