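import Pool.Agent.Lib.MP_452a87_nt.SpecA

/-!
# Part A: clearing denominators
-/

set_option autoImplicit false

namespace Pool.Agent.SMQ

open MvPolynomial

section

variable {Ω : Type} [Field Ω] [CharZero Ω] {τ : Type}

/-- The quotients `a(u) / l(u)`. -/
private def frc (u : τ → Ω) : IntermediateField ℚ Ω where
  carrier := {k | ∃ a l : MvPolynomial τ ℤ, aeval u l ≠ 0 ∧ aeval u l * k = aeval u a}
  mul_mem' := by
    rintro p q ⟨a, l, hl, h⟩ ⟨b, m, hm, h'⟩
    refine ⟨a * b, l * m, ?_, ?_⟩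
    · rw [map_mul]
      exact mul_ne_zero hl hm
    · rw [map_mul, map_mul, ← h, ← h']
      ring
  add_mem' := by
    rintro p q ⟨a, l, hl, h⟩ ⟨b, m, hm, h'⟩
    refine ⟨m * a + l * b, l * m, ?_, ?_⟩
    · rw [map_mul]
      exact mul_ne_zero hl hm
    · rw [map_add, map_mul, map_mul, map_mul, ← h, ← h']
      ring
  algebraMap_mem' := by
    intro q
    refine ⟨C q.num, C (q.den : ℤ), ?_, ?_⟩
    · rw [aeval_C]
      simp
    · rw [aeval_C, aeval_C]
      have h : (q.den : ℚ) * q = q.num := Rat.den_mul_eq_num q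
      have h2 := congrArg (fun t : ℚ => (t : Ω)) h
      simp only [Rat.cast_mul, Rat.cast_natCast, Rat.cast_intCast] at h2
      simpa using h2
  inv_mem' := by
    rintro p ⟨a, l, hl, h⟩
    by_cases hp : p = 0
    · exact ⟨0, 1, by rw [map_one]; exact one_ne_zero, by rw [hp]; simp⟩
    · refine ⟨l, a, ?_, ?_⟩
      · rw [← h]
        exact mul_ne_zero hl hp
      · rw [← h, mul_assoc, mul_inv_cancel₀ hp, mul_one]

private theorem mem_frc (u : τ → Ω) (k : Ω) (h : k ∈ IntermediateField.adjoin ℚ (Set.range u)) :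
    ∃ a l : MvPolynomial τ ℤ, aeval u l ≠ 0 ∧ aeval u l * k = aeval u a := by
  have h1 : IntermediateField.adjoin ℚ (Set.range u) ≤ frc u := by
    rw [IntermediateField.adjoin_le_iff]
    rintro _ ⟨i, rfl⟩
    exact ⟨X i, 1, by rw [map_one]; exact one_ne_zero, by simp⟩
  exact h1 h

omit [CharZero Ω] in
private theorem aeval_inl {ρ : ℕ} (u : τ → Ω) (ψ : Fin ρ → Ω) (a : MvPolynomial τ ℤ) :
    aeval (Sum.elim u ψ) (rename (Sum.inl : τ → τ ⊕ Fin ρ) a) = aeval u a := by
  rw [aeval_rename]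
  rfl

private theorem mem_adj {ρ : ℕ} (u : τ → Ω) (ψ : Fin ρ → Ω) (c : Ω)
    (h : c ∈ Algebra.adjoin (IntermediateField.adjoin ℚ (Set.range u)) (Set.range ψ)) :
    ∃ (l : MvPolynomial τ ℤ) (g : MvPolynomial (τ ⊕ Fin ρ) ℤ), aeval u l ≠ 0 ∧
      aeval u l * c = aeval (Sum.elim u ψ) g := by
  induction h using Algebra.adjoin_induction with
  | mem x hx =>
    obtain ⟨i, rfl⟩ := hx
    exact ⟨1, X (Sum.inr i), by rw [map_one]; exact one_ne_zero, by simp⟩
  | algebraMap r =>
    obtain ⟨a, l, hl, h⟩ := mem_frc u r r.2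
    refine ⟨l, rename Sum.inl a, hl, ?_⟩
    rw [aeval_inl]
    exact h
  | add x y _ _ hx hy =>
    obtain ⟨l, g, hl, h⟩ := hx
    obtain ⟨l', g', hl', h'⟩ := hy
    refine ⟨l * l', rename Sum.inl l' * g + rename Sum.inl l * g', ?_, ?_⟩
    · rw [map_mul]
      exact mul_ne_zero hl hl'
    · rw [map_add, map_mul, map_mul, map_mul, aeval_inl, aeval_inl, ← h, ← h']
      ring
  | mul x y _ _ hx hy =>
    obtain ⟨l, g, hl, h⟩ := hx
    obtain ⟨l', g', hl', h'⟩ := hy
    refine ⟨l * l', g * g', ?_, ?_⟩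
    · rw [map_mul]
      exact mul_ne_zero hl hl'
    · rw [map_mul, map_mul, ← h, ← h']
      ring

/-- Common denominators. -/
private theorem common {ρ : ℕ} (u : τ → Ω) (ψ : Fin ρ → Ω) (c : ℕ → Ω)
    (h : ∀ i, c i ∈ Algebra.adjoin (IntermediateField.adjoin ℚ (Set.range u)) (Set.range ψ))
    (N : ℕ) : ∃ (l : MvPolynomial τ ℤ) (g : ℕ → MvPolynomial (τ ⊕ Fin ρ) ℤ), aeval u l ≠ 0 ∧
      ∀ i < N, aeval u l * c i = aeval (Sum.elim u ψ) (g i) := by
  induction N with
  | zero => exact ⟨1, 0, by rw [map_one]; exact one_ne_zero, fun i hi => absurd hi (by omega)⟩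
  | succ N ih =>
    obtain ⟨l, g, hl, hg⟩ := ih
    obtain ⟨l', g', hl', hg'⟩ := mem_adj u ψ (c N) (h N)
    refine ⟨l * l', fun i => if i < N then rename Sum.inl l' * g i else rename Sum.inl l * g',
      ?_, ?_⟩
    · rw [map_mul]
      exact mul_ne_zero hl hl'
    · intro i hi
      by_cases hiN : i < N
      · simp only [hiN, if_true]
        rw [map_mul, map_mul, aeval_inl, ← hg i hiN]
        ring
      · have h3 : i = N := by omega
        subst h3
        simp only [lt_irrefl, if_false]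
        rw [map_mul, map_mul, aeval_inl, ← hg']
        ring

end

theorem pClr : S_Clr := by
  intro Ω _ _ τ ρ u ψ y hy
  obtain ⟨p, hp, hpy⟩ := hy
  obtain ⟨l, g, hl, hg⟩ := common u ψ (fun i => ((p.coeff i : _) : Ω)) (fun i => (p.coeff i).2)
    p.natDegree
  have hl0 : (rename (Sum.inl : τ → τ ⊕ Fin ρ) l) ≠ 0 := by
    intro h
    have h1 := aeval_inl u ψ l
    rw [h, map_zero] at h1
    exact hl h1.symm
  let Q : Polynomial (MvPolynomial (τ ⊕ Fin ρ) ℤ) :=
    ∑ i ∈ Finset.range p.natDegree, Polynomial.C (g i) * Polynomial.X ^ i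
  have hQ : Q.degree < (p.natDegree : WithBot ℕ) := by
    refine lt_of_le_of_lt (Polynomial.degree_sum_le _ _) ?_
    rw [Finset.sup_lt_iff (WithBot.bot_lt_coe _)]
    intro i hi
    refine lt_of_le_of_lt (Polynomial.degree_C_mul_X_pow_le i (g i)) ?_
    exact_mod_cast Finset.mem_range.mp hi
  have hdeg : (Polynomial.C (rename (Sum.inl : τ → τ ⊕ Fin ρ) l) *
      Polynomial.X ^ p.natDegree).degree = (p.natDegree : WithBot ℕ) :=
    Polynomial.degree_C_mul_X_pow _ hl0
  refine ⟨Q + Polynomial.C (rename Sum.inl l) * Polynomial.X ^ p.natDegree, l, ?_, hl, ?_⟩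
  · rw [Polynomial.leadingCoeff_add_of_degree_lt (by rw [hdeg]; exact hQ)]
    exact Polynomial.leadingCoeff_C_mul_X_pow _ _
  · have h5 : (aeval (R := ℤ) (Sum.elim u ψ)).toRingHom (rename (Sum.inl : τ → τ ⊕ Fin ρ) l) =
        aeval u l := aeval_inl u ψ l
    rw [Polynomial.eval₂_add, Polynomial.eval₂_mul, Polynomial.eval₂_C, Polynomial.eval₂_pow,
      Polynomial.eval₂_X, h5, Polynomial.eval₂_finsetSum]
    have h6 : ∑ i ∈ Finset.range p.natDegree,
        Polynomial.eval₂ (aeval (R := ℤ) (Sum.elim u ψ)).toRingHom y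
          (Polynomial.C (g i) * Polynomial.X ^ i) =
        aeval u l * ∑ i ∈ Finset.range p.natDegree, ((p.coeff i : _) : Ω) * y ^ i := by
      rw [Finset.mul_sum]
      refine Finset.sum_congr rfl fun i hi => ?_
      rw [Polynomial.eval₂_mul, Polynomial.eval₂_C, Polynomial.eval₂_pow, Polynomial.eval₂_X,
        ← mul_assoc, hg i (Finset.mem_range.mp hi)]
      rfl
    rw [h6, ← mul_add]
    have h7 : ∑ i ∈ Finset.range p.natDegree, ((p.coeff i : _) : Ω) * y ^ i +
        y ^ p.natDegree = 0 := by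
      rw [Polynomial.eval₂_eq_sum_range, Finset.sum_range_succ, hp.coeff_natDegree, map_one,
        one_mul] at hpy
      exact hpy
    rw [h7, mul_zero]

end Pool.Agent.SMQ
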