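import Pool.Agent.Lib.MP_452a87_nt.SpecA

/-!
# Part A: extension of specializations
-/

set_option autoImplicit false

namespace Pool.Agent.SMQ

open MvPolynomial

private theorem map_aeval_int {σ S T : Type} [CommRing S] [CommRing T] (h : S →+* T) (w : σ → S)
    (P : MvPolynomial σ ℤ) : h (aeval w P) = aeval (fun i => h (w i)) P := by
  induction P using MvPolynomial.induction_on with
  | C a => simp
  | add p q hp hq => rw [map_add, map_add, map_add, hp, hq]
  | mul_X p i hp => rw [map_mul, map_mul, map_mul, hp, aeval_X, aeval_X]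

theorem pExt (h1 : S_Hom) : S_Ext := by
  intro ι κ Ω F _ _ _ _ x x' z hspc hz
  let f : MvPolynomial ι ℤ →+* Ω := (aeval x : MvPolynomial ι ℤ →ₐ[ℤ] Ω).toRingHom
  let f' : MvPolynomial ι ℤ →+* F := (aeval x' : MvPolynomial ι ℤ →ₐ[ℤ] F).toRingHom
  let g : MvPolynomial ι ℤ →+* f.range := f.rangeRestrict
  have hg : Function.Surjective g := f.rangeRestrict_surjective
  have hker : RingHom.ker g ≤ RingHom.ker f' := by
    intro P hP
    rw [RingHom.mem_ker] at hP ⊢
    exact hspc P (congrArg Subtype.val hP)
  let φ : f.range →+* F := g.liftOfSurjective hg ⟨f', hker⟩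
  have hφ : ∀ P, φ (g P) = f' P := fun P => RingHom.liftOfRightInverse_comp_apply _ _ _ _ _
  have hprime : (RingHom.ker φ).IsPrime := RingHom.ker_isPrime φ
  let M : Submonoid f.range := (RingHom.ker φ).primeCompl
  let AM := Localization M
  have hMF : ∀ y : M, IsUnit (φ y) := fun y => IsUnit.mk0 _ y.2
  have hM0 : ∀ y : M, (y : f.range) ≠ 0 := by
    intro y hy
    refine y.2 ?_
    rw [hy]
    exact zero_mem _
  have hMΩ : ∀ y : M, IsUnit (f.range.subtype y) := fun y => IsUnit.mk0 _ fun h =>
    hM0 y (Subtype.ext h)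
  let ψF : AM →+* F := IsLocalization.lift (M := M) hMF
  let ψΩ : AM →+* Ω := IsLocalization.lift (M := M) hMΩ
  have hψF : ∀ a, ψF (algebraMap f.range AM a) = φ a := fun a => IsLocalization.lift_eq hMF a
  have hψΩ : ∀ a, ψΩ (algebraMap f.range AM a) = a := fun a => IsLocalization.lift_eq hMΩ a
  have hMle : M ≤ nonZeroDivisors f.range := by
    intro y hy
    exact mem_nonZeroDivisors_of_ne_zero (hM0 ⟨y, hy⟩)
  have hinjA : Function.Injective (algebraMap f.range AM) := IsLocalization.injective AM hMle
  have hinjΩ : Function.Injective ψΩ := by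
    rw [IsLocalization.lift_injective_iff]
    intro a b
    constructor
    · intro h
      rw [hinjA h]
    · intro h
      rw [Subtype.ext h]
  let _ : Algebra AM Ω := ψΩ.toAlgebra
  have hzint : ∀ j, IsIntegral AM (z j) := by
    intro j
    obtain ⟨P, hP1, hP2⟩ := hz j
    have hc : φ (g P.leadingCoeff) ≠ 0 := by
      rw [hφ]
      exact hP1
    have hcM : g P.leadingCoeff ∈ M := hc
    have hcu : IsUnit (algebraMap f.range AM (g P.leadingCoeff)) :=
      IsLocalization.map_units AM (⟨g P.leadingCoeff, hcM⟩ : M)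
    have h2 : Polynomial.eval₂ ψΩ (z j) (P.map ((algebraMap f.range AM).comp g)) = 0 := by
      rw [Polynomial.eval₂_map]
      have h3 : ψΩ.comp ((algebraMap f.range AM).comp g) = f := by
        refine RingHom.ext fun Q => ?_
        rw [RingHom.comp_apply, RingHom.comp_apply, hψΩ]
        rfl
      rw [h3]
      exact hP2
    have h4 := RingHom.isIntegralElem_leadingCoeff_mul ψΩ
      (P.map ((algebraMap f.range AM).comp g)) (z j) h2
    rw [Polynomial.leadingCoeff_map_of_leadingCoeff_ne_zero _ (by
      rw [RingHom.comp_apply]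
      intro h
      exact not_isUnit_zero (h ▸ hcu)), RingHom.comp_apply] at h4
    obtain ⟨v, hv⟩ := hcu.exists_left_inv
    have h5 : z j = algebraMap AM Ω v * (ψΩ (algebraMap f.range AM (g P.leadingCoeff)) * z j) := by
      have h6 : algebraMap AM Ω v * ψΩ (algebraMap f.range AM (g P.leadingCoeff)) = 1 := by
        change ψΩ v * ψΩ _ = 1
        rw [← map_mul, hv, map_one]
      rw [← mul_assoc, h6, one_mul]
    rw [h5]
    exact isIntegral_algebraMap.mul h4
  let B := integralClosure AM Ω
  have hBinj : Function.Injective (algebraMap AM B) := by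
    intro a b h
    exact hinjΩ (congrArg Subtype.val h)
  obtain ⟨Φ, hΦ⟩ := h1 AM B F inferInstance hBinj ψF
  let w : ι ⊕ κ → B := Sum.elim (fun i => algebraMap AM B (algebraMap f.range AM (g (X i))))
    (fun j => ⟨z j, hzint j⟩)
  refine ⟨fun j => Φ ⟨z j, hzint j⟩, fun P hP => ?_⟩
  have h7 : (fun i => (B.val : B →+* Ω) (w i)) = Sum.elim x z := by
    funext i
    rcases i with i | j
    · change ψΩ (algebraMap f.range AM (g (X i))) = x i
      rw [hψΩ]
      exact aeval_X x i
    · rfl
  have h8 : (fun i => Φ (w i)) = Sum.elim x' (fun j => Φ ⟨z j, hzint j⟩) := by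
    funext i
    rcases i with i | j
    · change (Φ.comp (algebraMap AM B)) (algebraMap f.range AM (g (X i))) = x' i
      rw [hΦ, hψF, hφ]
      exact aeval_X x' i
    · rfl
  have h9 : aeval w P = 0 := by
    have h10 := map_aeval_int (B.val : B →+* Ω) w P
    rw [h7, hP] at h10
    exact Subtype.ext h10
  have h11 := map_aeval_int Φ w P
  rw [h9, map_zero, h8] at h11
  exact h11.symm

end Pool.Agent.SMQ
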