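import Pool.Agent.Lib.MP_452a87_nt.SpecA

/-!
# Part A: the kernel of a generic point of a hypersurface is principal
-/

set_option autoImplicit false

namespace Pool.Agent.SMQ

open MvPolynomial

/-- Gauss' lemma for two polynomials with a common zero. -/
private theorem gauss_dvd {R Ω : Type} [CommRing R] [IsDomain R] [UniqueFactorizationMonoid R]
    [Field Ω] (f : R →+* Ω) (hf : Function.Injective f) (z : Ω) (E G : Polynomial R)
    (hE : Irreducible E) (hE0 : E.eval₂ f z = 0) (hG0 : G.eval₂ f z = 0) : E ∣ G := by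
  obtain ⟨f', hf'⟩ : ∃ f' : FractionRing R →+* Ω, f'.comp (algebraMap R (FractionRing R)) = f :=
    ⟨IsFractionRing.lift (A := R) (K := FractionRing R) hf,
      RingHom.ext fun p => IsFractionRing.lift_algebraMap hf p⟩
  let _ : Algebra (FractionRing R) Ω := f'.toAlgebra
  have hroot : ∀ P : Polynomial R, P.eval₂ f z = 0 →
      Polynomial.aeval z (P.map (algebraMap R (FractionRing R))) = 0 := by
    intro P hP
    rw [← hP, Polynomial.aeval_def, Polynomial.eval₂_map]
    exact congrArg (fun t => Polynomial.eval₂ t z P) hf'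
  have hdeg : E.natDegree ≠ 0 := by
    intro h
    obtain ⟨e, he⟩ := Polynomial.natDegree_eq_zero.mp h
    rw [← he, Polynomial.eval₂_C] at hE0
    have h2 : e = 0 := hf (by rw [map_zero]; exact hE0)
    rw [h2, Polynomial.C_0] at he
    exact hE.ne_zero he.symm
  have hprim : E.IsPrimitive := hE.isPrimitive hdeg
  have hirr := (hprim.irreducible_iff_irreducible_map_fraction_map (K := FractionRing R)).mp hE
  have hint : IsIntegral (FractionRing R) z := by
    refine (isAlgebraic_iff_isIntegral).mp
      ⟨E.map (algebraMap R (FractionRing R)), hirr.ne_zero, hroot E hE0⟩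
  have hass := (minpoly.irreducible hint).associated_of_dvd hirr
    (minpoly.dvd (FractionRing R) z (hroot E hE0))
  have hdvd : E.map (algebraMap R (FractionRing R)) ∣ G.map (algebraMap R (FractionRing R)) :=
    hass.symm.dvd.trans (minpoly.dvd (FractionRing R) z (hroot G hG0))
  exact hprim.dvd_of_fraction_map_dvd_fraction_map hdvd

theorem pGau : S_Gau := by
  intro ι Ω _ _ x z E G hx hE hE0 hG0
  have hx' : Function.Injective (aeval x : MvPolynomial ι ℤ →ₐ[ℤ] Ω) :=
    hx.restrictScalars (R := ℤ) (K := ℚ) (algebraMap ℤ ℚ).injective_int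
  have hE' : Irreducible (optionEquivLeft ℤ ι E) :=
    (MulEquiv.irreducible_iff (optionEquivLeft ℤ ι)).mpr hE
  rw [← eval_opt] at hE0 hG0
  have h3 := gauss_dvd _ hx' z _ _ hE' hE0 hG0
  exact (map_dvd_iff (optionEquivLeft ℤ ι)).mp h3

end Pool.Agent.SMQ
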