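import Pool.Agent.Lib.MP_452a87_nt.SpecA

/-!
# Part A: existence of generic families near a given one (helper12)
-/

set_option autoImplicit false

namespace Pool.Agent.SMQ

open MvPolynomial Cardinal

namespace GnxAux

theorem cnt_adjoin {S : Set ℂ} (hS : S.Countable) : Countable (IntermediateField.adjoin ℚ S) := by
  rw [← Cardinal.mk_le_aleph0_iff]
  refine (IntermediateField.cardinalMk_adjoin_le ℚ S).trans ?_
  have h1 : #S ≤ ℵ₀ := Cardinal.mk_le_aleph0_iff.2 hS.to_subtype
  have h2 : #ℚ ≤ ℵ₀ := Cardinal.mk_le_aleph0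
  exact max_le (max_le h2 h1) le_rfl

theorem step (K : IntermediateField ℚ ℂ) [Countable K] (T : Set ℂ) (hT : T.Finite) (v : ℂ) (ε : ℝ)
    (hε : 0 < ε) : ∃ u : ℂ, ‖u - v‖ < ε ∧ Transcendental (Algebra.adjoin K T) u := by
  have hc : Countable (Algebra.adjoin K T) := by
    rw [← Cardinal.mk_le_aleph0_iff]
    refine (Algebra.cardinalMk_adjoin_le K T).trans ?_
    have h1 : #T ≤ ℵ₀ := Cardinal.mk_le_aleph0_iff.2 hT.countable.to_subtype
    have h2 : #K ≤ ℵ₀ := Cardinal.mk_le_aleph0
    exact max_le (max_le h2 h1) le_rfl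
  have h3 : {x : ℂ | IsAlgebraic (Algebra.adjoin K T) x}.Countable :=
    Algebraic.countable (Algebra.adjoin K T) ℂ
  obtain ⟨u, hu, hu'⟩ := (h3.dense_compl ℝ).exists_dist_lt v hε
  refine ⟨u, ?_, hu⟩
  rw [← dist_eq_norm, dist_comm]
  exact hu'

end GnxAux

theorem pGnx : S_Gnx := by
  intro ι τ _ hτ ξ v ε hε
  haveI := GnxAux.cnt_adjoin (Set.finite_range ξ).countable
  revert v
  induction τ using Finite.induction_empty_option with
  | of_equiv e ih =>
    intro v
    obtain ⟨u, hu, hg⟩ := ih (v ∘ e)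
    refine ⟨u ∘ e.symm, fun p => ?_, hg.comp _ e.symm.injective⟩
    have := hu (e.symm p)
    simpa using this
  | h_empty =>
    intro v
    exact ⟨v, fun p => p.elim, algebraicIndependent_empty_type⟩
  | h_option ih =>
    intro v
    obtain ⟨u, hu, hg⟩ := ih (fun p => v (some p))
    obtain ⟨a, ha, hat⟩ := GnxAux.step (IntermediateField.adjoin ℚ (Set.range ξ)) (Set.range u)
      (Set.finite_range u) (v none) ε hε
    refine ⟨fun o => o.elim a u, fun p => ?_, (hg.option_iff_transcendental a).2 hat⟩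
    cases p with
    | none => exact ha
    | some p => exact hu p

end Pool.Agent.SMQ
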