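import Pool.Agent.Lib.MP_452a87_nt.SpecA

/-!
# Part A: extension of homomorphisms along integral extensions
-/

set_option autoImplicit false

namespace Pool.Agent.SMQ

theorem pHom : S_Hom := by
  intro A B F _ _ _ _ _ hint hinj φ
  have := hint
  have hp : (RingHom.ker φ).IsPrime := RingHom.ker_isPrime φ
  obtain ⟨Q, -, hQ, hQp⟩ := Ideal.exists_ideal_over_prime_of_isIntegral (RingHom.ker φ)
    (⊥ : Ideal B) (by
      rw [← RingHom.ker_eq_comap_bot, (RingHom.injective_iff_ker_eq_bot _).mp hinj]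
      exact bot_le)
  have hlies : Q.LiesOver (RingHom.ker φ) := ⟨hQp.symm⟩
  let _ : Algebra (A ⧸ RingHom.ker φ) F := (RingHom.kerLift φ).toAlgebra
  have h1 : Function.Injective (algebraMap (A ⧸ RingHom.ker φ) F) := RingHom.kerLift_injective φ
  have h2 : Function.Injective (algebraMap (A ⧸ RingHom.ker φ) (B ⧸ Q)) := by
    rw [injective_iff_map_eq_zero]
    intro a
    obtain ⟨a, rfl⟩ := Ideal.Quotient.mk_surjective a
    intro ha
    rw [Ideal.Quotient.algebraMap_mk_of_liesOver, Ideal.Quotient.eq_zero_iff_mem] at ha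
    rw [Ideal.Quotient.eq_zero_iff_mem, ← hQp]
    exact ha
  have h3 : Module.IsTorsionFree (A ⧸ RingHom.ker φ) F :=
    Module.isTorsionFree_iff_algebraMap_injective.mpr h1
  have h4 : Module.IsTorsionFree (A ⧸ RingHom.ker φ) (B ⧸ Q) :=
    Module.isTorsionFree_iff_algebraMap_injective.mpr h2
  have h5 : Algebra.IsIntegral (A ⧸ RingHom.ker φ) (B ⧸ Q) := inferInstance
  let f : (B ⧸ Q) →ₐ[A ⧸ RingHom.ker φ] F := IsAlgClosed.lift
  refine ⟨(f : (B ⧸ Q) →+* F).comp (Ideal.Quotient.mk Q), RingHom.ext fun a => ?_⟩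
  rw [RingHom.comp_apply, RingHom.comp_apply]
  have h6 := f.commutes (Ideal.Quotient.mk (RingHom.ker φ) a)
  rw [Ideal.Quotient.algebraMap_mk_of_liesOver] at h6
  exact h6

end Pool.Agent.SMQ
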