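import Pool.Agent.Lib.MP_452a87_nt.A.Aux12

/-!
# Part A: the point `(u, ψ)` is algebraically independent (helper12)
-/

set_option autoImplicit false

namespace Pool.Agent.SMQ

open MvPolynomial

theorem pP1 (hA1v : S_A1v) (hTrI : S_TrI) : S_P1 := by
  intro ι _ _ r ξ u hr hu
  have huQ : AlgebraicIndependent ℚ u :=
    hu.restrictScalars (algebraMap ℚ (IntermediateField.adjoin ℚ (Set.range ξ))).injective
  refine ⟨huQ, ?_⟩
  obtain ⟨b, hb, hbx⟩ := hr
  have h1 : AlgebraicIndependent ℚ (Sum.elim u (ξ ∘ b)) := by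
    refine hb.sumElim_of_tower (S := IntermediateField.adjoin ℚ (Set.range ξ)) ?_ hu
    rintro _ ⟨i, rfl⟩
    exact ⟨⟨ξ (b i), IntermediateField.subset_adjoin ℚ _ ⟨b i, rfl⟩⟩, rfl⟩
  refine Aux12.ind_of_rk ?_
  -- the members of the first family are algebraic over the second
  have hint := hA1v ι ℂ r ξ u huQ ⟨r, le_rfl, ⟨b, hb, hbx⟩⟩
  have hcl : ∀ j, ξ j ∈ (Aux12.Mt ℂ).closure (Set.range (Sum.elim u (psi u ξ))) := by
    intro j
    rw [← Aux12.alg_iff]
    set K := IntermediateField.adjoin ℚ (Set.range (Sum.elim u (psi u ξ))) with hK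
    have hle : IntermediateField.adjoin ℚ (Set.range u) ≤ K := by
      refine IntermediateField.adjoin.mono _ _ _ ?_
      rintro _ ⟨p, rfl⟩
      exact ⟨Sum.inl p, rfl⟩
    have hmem : ∀ y ∈ Algebra.adjoin (IntermediateField.adjoin ℚ (Set.range u))
        (Set.range (psi u ξ)), y ∈ K := by
      intro y hy
      induction hy using Algebra.adjoin_induction with
      | mem y hy =>
        obtain ⟨i, rfl⟩ := hy
        exact IntermediateField.subset_adjoin ℚ _ ⟨Sum.inr i, rfl⟩
      | algebraMap c => exact hle c.2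
      | add y z _ _ h1 h2 => exact add_mem h1 h2
      | mul y z _ _ h1 h2 => exact mul_mem h1 h2
    have h2 := IsIntegral.map_of_comp_eq
      ((Algebra.adjoin (IntermediateField.adjoin ℚ (Set.range u))
        (Set.range (psi u ξ))).val.toRingHom.codRestrict K fun y => hmem y.1 y.2)
      (RingHom.id ℂ) rfl (hint j)
    have h3 : IsIntegral K (ξ j) := h2
    exact h3.isAlgebraic
  have h2 : Set.range (Sum.elim u (ξ ∘ b)) ⊆
      (Aux12.Mt ℂ).closure (Set.range (Sum.elim u (psi u ξ))) := by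
    rintro _ ⟨p | i, rfl⟩
    · exact Aux12.mem_cl ⟨Sum.inl p, rfl⟩
    · exact hcl (b i)
  have h3 := (Aux12.ind_range h1).encard_le_eRk_of_subset h2
  rw [Matroid.eRk_closure_eq, ← Set.image_univ, h1.injective.encard_image, Set.encard_univ,
    ENat.card_eq_coe_natCard] at h3
  exact h3

end Pool.Agent.SMQ
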