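import Pool.Agent.Lib.MP_452a87_nt.SpecA

/-!
# Part A: points over a zero of `e0 E`
-/

set_option autoImplicit false

namespace Pool.Agent.SMQ

open MvPolynomial

theorem pP4 (hP1 : S_P1) (hA1v : S_A1v) (hClr : S_Clr) (hGau : S_Gau) (hExt : S_Ext)
    (hGnx : S_Gnx) : S_P4 := by
  intro ι F _ _ _ _ _ r ξ f E hTr hE hEv u T huQ huT
  have huZ : AlgebraicIndependent ℤ u :=
    huQ.restrictScalars (K := ℚ) (algebraMap ℤ ℚ).injective_int
  obtain ⟨v, -, hv⟩ := hGnx ι (Fin r × ι) ξ 0 1 one_pos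
  obtain ⟨hvQ, hx⟩ := hP1 ι r ξ v hTr hv
  have hSpc : Spc (ev (aeval ξ f) (Sum.elim v (psi v ξ))) (ev 0 (Sum.elim u T)) := by
    intro G hG
    obtain ⟨c, rfl⟩ := hGau (BU ι r) ℂ (Sum.elim v (psi v ξ)) (aeval ξ f) E G hx hE (hEv v) hG
    rw [map_mul, ← aeval_e0, huT, zero_mul]
  have hrel : ∀ j : ι, ∃ P : Polynomial (MvPolynomial (Option (BU ι r)) ℤ),
      aeval (ev 0 (Sum.elim u T)) P.leadingCoeff ≠ 0 ∧
      Polynomial.eval₂ (aeval (R := ℤ) (ev (aeval ξ f) (Sum.elim v (psi v ξ)))).toRingHom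
        (ξ j) P = 0 := by
    intro j
    have h1 := hA1v ι ℂ r ξ v hvQ ⟨r, le_rfl, hTr⟩ j
    obtain ⟨P, l, hPl, hl, hP⟩ := hClr ℂ (Fin r × ι) r v (psi v ξ) (ξ j) h1
    have hl0 : l ≠ 0 := by
      rintro rfl
      exact hl (map_zero _)
    have hval : aeval (ev 0 (Sum.elim u T)) (rename some P.leadingCoeff) = aeval u l := by
      rw [hPl, aeval_rename, aeval_rename]
      rfl
    have hval0 : aeval u l ≠ 0 := fun h => hl0 ((algebraicIndependent_iff.mp huZ) l h)
    have hne : (rename some : MvPolynomial (BU ι r) ℤ →ₐ[ℤ] _).toRingHom P.leadingCoeff ≠ 0 := by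
      intro h
      refine hval0 ?_
      rw [← hval]
      change aeval (ev 0 (Sum.elim u T)) ((rename some : MvPolynomial (BU ι r) ℤ →ₐ[ℤ]
        _).toRingHom P.leadingCoeff) = 0
      rw [h, map_zero]
    refine ⟨P.map (rename some : MvPolynomial (BU ι r) ℤ →ₐ[ℤ] _).toRingHom, ?_, ?_⟩
    · rw [Polynomial.leadingCoeff_map_of_leadingCoeff_ne_zero _ hne]
      change aeval (ev 0 (Sum.elim u T)) (rename some P.leadingCoeff) ≠ 0
      rw [hval]
      exact hval0
    · rw [Polynomial.eval₂_map]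
      have h3 : ((aeval (R := ℤ) (ev (aeval ξ f) (Sum.elim v (psi v ξ)))).toRingHom.comp
          (rename some : MvPolynomial (BU ι r) ℤ →ₐ[ℤ] _).toRingHom) =
          (aeval (R := ℤ) (Sum.elim v (psi v ξ))).toRingHom := by
        refine RingHom.ext fun Q => ?_
        change aeval (ev (aeval ξ f) (Sum.elim v (psi v ξ))) (rename some Q) =
          aeval (Sum.elim v (psi v ξ)) Q
        rw [aeval_rename]
        rfl
      rw [h3]
      exact hP
  obtain ⟨ξ', hξ'⟩ := hExt (Option (BU ι r)) ι ℂ F (ev (aeval ξ f) (Sum.elim v (psi v ξ)))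
    (ev 0 (Sum.elim u T)) ξ hSpc hrel
  refine ⟨ξ', ?_, ?_, ?_⟩
  · have h1 := hξ'.comp Sum.inr
    rw [Sum.elim_comp_inr, Sum.elim_comp_inr] at h1
    exact h1
  · have h1 := hξ' (rename Sum.inr f - X (Sum.inl none)) (by
      rw [map_sub, aeval_rename, Sum.elim_comp_inr, aeval_X, Sum.elim_inl, ev_none, sub_self])
    rw [map_sub, aeval_rename, Sum.elim_comp_inr, aeval_X, Sum.elim_inl, ev_none, sub_zero] at h1
    exact h1
  · funext i
    have h1 := hξ' (∑ j, X (Sum.inl (some (Sum.inl (i, j)))) * X (Sum.inr j) -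
      X (Sum.inl (some (Sum.inr i)))) (by
        simp only [map_sub, map_sum, map_mul, aeval_X, Sum.elim_inl, Sum.elim_inr, ev_some]
        exact sub_self _)
    simp only [map_sub, map_sum, map_mul, aeval_X, Sum.elim_inl, Sum.elim_inr, ev_some] at h1
    exact sub_eq_zero.mp h1

end Pool.Agent.SMQ
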