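import Pool.Agent.Lib.MP_452a87_nt.SpecA

/-!
# Part A: the leading coefficients of the factors of `e0 E`
-/

set_option autoImplicit false

namespace Pool.Agent.SMQ

open MvPolynomial

/-- Divisors of nonzero polynomials in the left variables are polynomials in the left
variables. -/
private theorem div_inl {α β : Type} (l : MvPolynomial α ℤ) (hl : l ≠ 0)
    (P : MvPolynomial (α ⊕ β) ℤ) (h : P ∣ rename Sum.inl l) :
    ∃ l' : MvPolynomial α ℤ, P = rename Sum.inl l' := by
  let Ψ : MvPolynomial (α ⊕ β) ℤ ≃ₐ[ℤ] MvPolynomial β (MvPolynomial α ℤ) :=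
    (renameEquiv ℤ (Equiv.sumComm α β)).trans (sumAlgEquiv ℤ β α)
  have hΨ : ∀ q : MvPolynomial α ℤ, Ψ (rename Sum.inl q) = C q := by
    intro q
    induction q using MvPolynomial.induction_on with
    | C a =>
      rw [rename_C]
      simp [Ψ]
    | add p q hp hq => rw [map_add, map_add, hp, hq, map_add]
    | mul_X p i hp =>
      rw [map_mul, map_mul, hp, map_mul]
      congr 1
      simp [Ψ]
  obtain ⟨Q, hQ⟩ := h
  have h1 : Ψ P * Ψ Q = C l := by
    rw [← map_mul, ← hQ, hΨ]
  have hP0 : Ψ P ≠ 0 := by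
    intro h0
    rw [h0, zero_mul] at h1
    exact hl ((C_injective β (MvPolynomial α ℤ)) (by rw [← h1, map_zero]))
  have hQ0 : Ψ Q ≠ 0 := by
    intro h0
    rw [h0, mul_zero] at h1
    exact hl ((C_injective β (MvPolynomial α ℤ)) (by rw [← h1, map_zero]))
  have h2 := totalDegree_mul_of_isDomain hP0 hQ0
  rw [h1, totalDegree_C] at h2
  have h3 : (Ψ P).totalDegree = 0 := by omega
  rw [totalDegree_eq_zero_iff_eq_C] at h3
  refine ⟨coeff 0 (Ψ P), Ψ.injective ?_⟩
  rw [hΨ]
  exact h3

private theorem map_aeval_nu {σ F : Type} [Field F] (ν : MvPolynomial σ ℤ →+* F)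
    (P : MvPolynomial σ ℤ) : aeval (fun i => ν (X i)) P = ν P := by
  induction P using MvPolynomial.induction_on with
  | C a =>
    rw [aeval_C, eq_intCast]
    exact (eq_intCast (ν.comp C) a).symm
  | add p q hp hq => rw [map_add, map_add, hp, hq]
  | mul_X p i hp => rw [map_mul, map_mul, hp, aeval_X]

/-- The generic point of a prime. -/
private theorem exists_point {σ : Type} (π : MvPolynomial σ ℤ) (hπ : Irreducible π) :
    ∃ (F : Type) (_ : Field F) (_ : IsAlgClosed F) (ν : MvPolynomial σ ℤ →+* F),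
      ∀ P, ν P = 0 ↔ π ∣ P := by
  have hprime : Prime π := UniqueFactorizationMonoid.irreducible_iff_prime.mp hπ
  have hI : (Ideal.span {π}).IsPrime := (Ideal.span_singleton_prime hπ.ne_zero).mpr hprime
  refine ⟨AlgebraicClosure (FractionRing (MvPolynomial σ ℤ ⧸ Ideal.span {π})), inferInstance,
    inferInstance, ((algebraMap (FractionRing (MvPolynomial σ ℤ ⧸ Ideal.span {π}))
      (AlgebraicClosure (FractionRing (MvPolynomial σ ℤ ⧸ Ideal.span {π})))).comp
      (algebraMap (MvPolynomial σ ℤ ⧸ Ideal.span {π})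
        (FractionRing (MvPolynomial σ ℤ ⧸ Ideal.span {π})))).comp
        (Ideal.Quotient.mk (Ideal.span {π})), fun P => ?_⟩
  rw [RingHom.comp_apply, RingHom.comp_apply, map_eq_zero,
    map_eq_zero_iff _ (IsFractionRing.injective (MvPolynomial σ ℤ ⧸ Ideal.span {π}) _),
    Ideal.Quotient.eq_zero_iff_mem, Ideal.mem_span_singleton]

theorem pP5 (hP4 : S_P4) (hA2 : S_A2) (hA1v : S_A1v) (hClr : S_Clr) (hTrE : S_TrE) : S_P5 := by
  intro ι _ _ ρ ξ f E π hTr hf hE hEv hπ hπE hπl
  obtain ⟨F, _, _, ν, hν⟩ := exists_point π hπ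
  have hnu : ∀ P, aeval (fun i => ν (X i)) P = ν P := map_aeval_nu ν
  obtain ⟨u, hu⟩ : ∃ u : Fin (ρ + 1) × ι → F, u = fun p => ν (X (Sum.inl p)) := ⟨_, rfl⟩
  obtain ⟨T, hT⟩ : ∃ T : Fin (ρ + 1) → F, T = fun i => ν (X (Sum.inr i)) := ⟨_, rfl⟩
  have hpt : (fun i => ν (X i)) = Sum.elim u T := by
    funext i
    cases i
    · rw [hu]; rfl
    · rw [hT]; rfl
  rw [hpt] at hnu
  have hdiv : ∀ l : MvPolynomial (Fin (ρ + 1) × ι) ℤ, ν (rename Sum.inl l) = 0 → l = 0 := by
    intro l h
    by_contra hl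
    obtain ⟨l', hl'⟩ := div_inl l hl π ((hν _).mp h)
    exact hπl l' hl'.symm
  have hchar : CharZero F := by
    refine charZero_of_inj_zero fun n hn => ?_
    have h1 := hdiv (C (n : ℤ)) (by
      rw [rename_C, ← hnu, aeval_C]
      simpa using hn)
    rw [← C_0, C_inj] at h1
    exact_mod_cast h1
  have halgZ : Algebra.IsAlgebraic ℤ ℚ := IsLocalization.isAlgebraic ℚ (nonZeroDivisors ℤ)
  have huZ : AlgebraicIndependent ℤ u := by
    rw [algebraicIndependent_iff]
    intro l hl
    refine hdiv l ?_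
    rw [← hnu, aeval_rename, Sum.elim_comp_inl]
    exact hl
  have huQ : AlgebraicIndependent ℚ u := huZ.extendScalars ℚ
  have hET : aeval (Sum.elim u T) (e0 E) = 0 := by
    rw [hnu]
    exact (hν _).mpr hπE
  obtain ⟨ξ', hξ', hfξ', hψ'⟩ := hP4 ι F (ρ + 1) ξ f E hTr hE hEv u T huQ hET
  obtain ⟨r', hr'⟩ := hTrE ι F ξ'
  have hr'ρ : r' < ρ + 1 := hA2 ι ℂ F ξ ξ' (ρ + 1) r' f hξ' hTr hr' hf hfξ'
  have hlow : AlgebraicIndependent ℚ (lower u) := by
    refine huQ.comp (fun p : Fin ρ × ι => (p.1.succ, p.2)) ?_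
    rintro ⟨i, j⟩ ⟨i', j'⟩ h
    simp only [Prod.mk.injEq, Fin.succ_inj] at h
    exact Prod.ext h.1 h.2
  have hψl : psi (lower u) ξ' = fun i : Fin ρ => T i.succ := by
    funext i
    change psi u ξ' i.succ = T i.succ
    rw [hψ']
  -- integrality over the bigger ring
  have hsub : ∀ y ∈ Algebra.adjoin (IntermediateField.adjoin ℚ (Set.range (lower u)))
      (Set.range fun i : Fin ρ => T i.succ),
      y ∈ Algebra.adjoin (IntermediateField.adjoin ℚ (Set.range u))
        (Set.range fun i : Fin ρ => T i.succ) := by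
    intro y hy
    induction hy using Algebra.adjoin_induction with
    | mem x hx => exact Algebra.subset_adjoin hx
    | algebraMap r =>
      have hle : IntermediateField.adjoin ℚ (Set.range (lower u)) ≤
          IntermediateField.adjoin ℚ (Set.range u) := by
        refine IntermediateField.adjoin.mono _ _ _ ?_
        rintro _ ⟨p, rfl⟩
        exact ⟨(p.1.succ, p.2), rfl⟩
      exact (Algebra.adjoin _ _).algebraMap_mem
        (⟨r, hle r.2⟩ : IntermediateField.adjoin ℚ (Set.range u))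
    | add x y _ _ hx hy => exact add_mem hx hy
    | mul x y _ _ hx hy => exact mul_mem hx hy
  have hint : ∀ j, IsIntegral (Algebra.adjoin (IntermediateField.adjoin ℚ (Set.range u))
      (Set.range fun i : Fin ρ => T i.succ)) (ξ' j) := by
    intro j
    have h1 := hA1v ι F ρ ξ' (lower u) hlow ⟨r', by omega, hr'⟩ j
    rw [hψl] at h1
    exact IsIntegral.map_of_comp_eq
      ((Algebra.adjoin (IntermediateField.adjoin ℚ (Set.range (lower u)))
        (Set.range fun i : Fin ρ => T i.succ)).val.toRingHom.codRestrict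
        (Algebra.adjoin (IntermediateField.adjoin ℚ (Set.range u))
        (Set.range fun i : Fin ρ => T i.succ)) fun y => hsub y y.2) (RingHom.id F) rfl h1
  have hT0 : IsIntegral (Algebra.adjoin (IntermediateField.adjoin ℚ (Set.range u))
      (Set.range fun i : Fin ρ => T i.succ)) (T 0) := by
    have hT0' : T 0 = ∑ j, u (0, j) * ξ' j := by
      rw [← hψ']
      rfl
    rw [hT0']
    refine IsIntegral.sum _ fun j _ => ?_
    refine IsIntegral.mul ?_ (hint j)
    have h1 : u (0, j) ∈ Algebra.adjoin (IntermediateField.adjoin ℚ (Set.range u))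
        (Set.range fun i : Fin ρ => T i.succ) :=
      (Algebra.adjoin _ _).algebraMap_mem (⟨u (0, j), IntermediateField.subset_adjoin ℚ _
        ⟨(0, j), rfl⟩⟩ : IntermediateField.adjoin ℚ (Set.range u))
    exact isIntegral_algebraMap (x := (⟨u (0, j), h1⟩ :
      Algebra.adjoin (IntermediateField.adjoin ℚ (Set.range u))
        (Set.range fun i : Fin ρ => T i.succ)))
  obtain ⟨P, l, hPl, hl, hP⟩ := hClr F (Fin (ρ + 1) × ι) ρ u (fun i => T i.succ) (T 0) hT0
  have hl0 : l ≠ 0 := by
    rintro rfl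
    exact hl (map_zero _)
  have h4 : π ∣ (sep ι ρ).symm P := by
    rw [← hν, ← hnu, ← eval_sep, AlgEquiv.apply_symm_apply]
    exact hP
  have h5 : sep ι ρ π ∣ P := by
    have h6 := map_dvd (sep ι ρ) h4
    rwa [AlgEquiv.apply_symm_apply] at h6
  have h7 := Polynomial.leadingCoeff_dvd_leadingCoeff h5
  rw [hPl] at h7
  exact div_inl l hl0 _ h7

end Pool.Agent.SMQ
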