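import Pool.Agent.Lib.MP_452a87_nt.SpecA

/-!
# Part A: the leading coefficient of `e0 E`
-/

set_option autoImplicit false

namespace Pool.Agent.SMQ

open MvPolynomial

/-- Divisors of nonzero polynomials in the left variables are polynomials in the left
variables. -/
private theorem div_inl' {α β : Type} (l : MvPolynomial α ℤ) (hl : l ≠ 0)
    (P : MvPolynomial (α ⊕ β) ℤ) (h : P ∣ rename Sum.inl l) :
    ∃ l' : MvPolynomial α ℤ, P = rename Sum.inl l' := by
  let Ψ : MvPolynomial (α ⊕ β) ℤ ≃ₐ[ℤ] MvPolynomial β (MvPolynomial α ℤ) :=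
    (renameEquiv ℤ (Equiv.sumComm α β)).trans (sumAlgEquiv ℤ β α)
  have hΨ : ∀ q : MvPolynomial α ℤ, Ψ (rename Sum.inl q) = C q := by
    intro q
    induction q using MvPolynomial.induction_on with
    | C a =>
      rw [rename_C]
      simp [Ψ]
    | add p q hp hq => rw [map_add, map_add, hp, hq, map_add]
    | mul_X p i hp =>
      rw [map_mul, map_mul, hp, map_mul]
      congr 1
      simp [Ψ]
  obtain ⟨Q, hQ⟩ := h
  have h1 : Ψ P * Ψ Q = C l := by
    rw [← map_mul, ← hQ, hΨ]
  have hP0 : Ψ P ≠ 0 := by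
    intro h0
    rw [h0, zero_mul] at h1
    exact hl ((C_injective β (MvPolynomial α ℤ)) (by rw [← h1, map_zero]))
  have hQ0 : Ψ Q ≠ 0 := by
    intro h0
    rw [h0, mul_zero] at h1
    exact hl ((C_injective β (MvPolynomial α ℤ)) (by rw [← h1, map_zero]))
  have h2 := totalDegree_mul_of_isDomain hP0 hQ0
  rw [h1, totalDegree_C] at h2
  have h3 : (Ψ P).totalDegree = 0 := by omega
  rw [totalDegree_eq_zero_iff_eq_C] at h3
  refine ⟨coeff 0 (Ψ P), Ψ.injective ?_⟩
  rw [hΨ]
  exact h3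

private theorem coeff_zero_opt' {β : Type} (P : MvPolynomial (Option β) ℤ) :
    (optionEquivLeft ℤ β P).coeff 0 = e0 P := by
  unfold e0
  induction P using MvPolynomial.induction_on with
  | C a => rw [optionEquivLeft_C, Polynomial.coeff_C_zero]; simp
  | add p q hp hq => rw [map_add, Polynomial.coeff_add, hp, hq, map_add]
  | mul_X p i hp =>
    rw [map_mul, Polynomial.mul_coeff_zero, hp, map_mul]
    congr 1
    cases i <;> simp

private theorem e0_ne_zero' {β : Type} {E : MvPolynomial (Option β) ℤ} (hE : Irreducible E)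
    (x : β → ℂ) (w : ℂ) (hw : w ≠ 0) (h : aeval (ev w x) E = 0) : e0 E ≠ 0 := by
  intro h0
  rw [← coeff_zero_opt'] at h0
  have h1 : (Polynomial.X : Polynomial (MvPolynomial β ℤ)) ∣ optionEquivLeft ℤ β E :=
    Polynomial.X_dvd_iff.mpr h0
  have hE' : Irreducible (optionEquivLeft ℤ β E) :=
    (MulEquiv.irreducible_iff (optionEquivLeft ℤ β)).mpr hE
  have h2 : optionEquivLeft ℤ β E ∣ Polynomial.X :=
    (Irreducible.dvd_comm Polynomial.irreducible_X hE').mp h1
  obtain ⟨Q, hQ⟩ := h2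
  have h3 := congrArg (Polynomial.eval₂ (aeval (R := ℤ) x).toRingHom w) hQ
  rw [Polynomial.eval₂_X, Polynomial.eval₂_mul, eval_opt, h, zero_mul] at h3
  exact hw h3

private theorem sep_inl' {ι : Type} {ρ : ℕ} (l : MvPolynomial (Fin (ρ + 1) × ι) ℤ) :
    sep ι ρ (rename Sum.inl l) = Polynomial.C (rename Sum.inl l) := by
  induction l using MvPolynomial.induction_on with
  | C a => simp [sep]
  | add p q hp hq => rw [map_add, map_add, hp, hq, map_add, map_add]
  | mul_X p i hp =>
    rw [map_mul, map_mul, hp, map_mul, map_mul]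
    congr 1
    simp [sep]

theorem pP6 (hP5 : S_P5) : S_P6 := by
  intro ι _ _ ρ ξ f E hTr hf hE hEv
  have hE0 : e0 E ≠ 0 := e0_ne_zero' hE _ _ hf (hEv 0)
  have hmain : ∀ P : MvPolynomial (BU ι (ρ + 1)) ℤ, P ∣ e0 E →
      ∃ a : MvPolynomial (Fin (ρ + 1) × ι) ℤ,
        (sep ι ρ P).leadingCoeff = rename Sum.inl a := by
    intro P
    refine WfDvdMonoid.induction_on_irreducible P ?_ ?_ ?_
    · intro h
      exact ⟨0, by rw [map_zero, map_zero, Polynomial.leadingCoeff_zero]⟩
    · intro v hv _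
      have h1 : IsUnit (sep ι ρ v) := hv.map (sep ι ρ)
      have h2 : (sep ι ρ v).leadingCoeff ∣ rename Sum.inl (1 : MvPolynomial (Fin (ρ + 1) × ι) ℤ) := by
        rw [map_one]
        have h3 : (sep ι ρ v).leadingCoeff ∣
            (1 : Polynomial (MvPolynomial (BV ι ρ) ℤ)).leadingCoeff :=
          Polynomial.leadingCoeff_dvd_leadingCoeff h1.dvd
        rwa [Polynomial.leadingCoeff_one] at h3
      exact div_inl' 1 one_ne_zero _ h2
    · intro a π ha hπ ih hdvd
      obtain ⟨l, hl⟩ := ih ((dvd_mul_left a π).trans hdvd)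
      have hπE : π ∣ e0 E := (dvd_mul_right π a).trans hdvd
      have h1 : ∃ l', (sep ι ρ π).leadingCoeff = rename Sum.inl l' := by
        by_cases h : ∃ l' : MvPolynomial (Fin (ρ + 1) × ι) ℤ, rename Sum.inl l' = π
        · obtain ⟨l', rfl⟩ := h
          exact ⟨l', by rw [sep_inl', Polynomial.leadingCoeff_C]⟩
        · push Not at h
          exact hP5 ι ρ ξ f E π hTr hf hE hEv hπ hπE h
      obtain ⟨l', hl'⟩ := h1
      exact ⟨l' * l, by rw [map_mul, Polynomial.leadingCoeff_mul, hl, hl', map_mul]⟩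
  obtain ⟨a, ha⟩ := hmain (e0 E) dvd_rfl
  refine ⟨a, ?_, ha⟩
  rintro rfl
  rw [map_zero, Polynomial.leadingCoeff_eq_zero] at ha
  exact hE0 ((sep ι ρ).injective (by rw [ha, map_zero]))

end Pool.Agent.SMQ
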