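import Pool.Agent.Lib.MP_452a87_nt.SpecA

/-!
# Part A: the points
-/

set_option autoImplicit false

namespace Pool.Agent.SMQ

open MvPolynomial

private theorem coeff_zero_opt {β : Type} (P : MvPolynomial (Option β) ℤ) :
    (optionEquivLeft ℤ β P).coeff 0 = e0 P := by
  unfold e0
  induction P using MvPolynomial.induction_on with
  | C a => rw [optionEquivLeft_C, Polynomial.coeff_C_zero]; simp
  | add p q hp hq => rw [map_add, Polynomial.coeff_add, hp, hq, map_add]
  | mul_X p i hp =>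
    rw [map_mul, Polynomial.mul_coeff_zero, hp, map_mul]
    congr 1
    cases i <;> simp

private theorem e0_ne_zero {β : Type} {E : MvPolynomial (Option β) ℤ} (hE : Irreducible E)
    (x : β → ℂ) (w : ℂ) (hw : w ≠ 0) (h : aeval (ev w x) E = 0) : e0 E ≠ 0 := by
  intro h0
  rw [← coeff_zero_opt] at h0
  have h1 : (Polynomial.X : Polynomial (MvPolynomial β ℤ)) ∣ optionEquivLeft ℤ β E :=
    Polynomial.X_dvd_iff.mpr h0
  have hE' : Irreducible (optionEquivLeft ℤ β E) :=
    (MulEquiv.irreducible_iff (optionEquivLeft ℤ β)).mpr hE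
  have h2 : optionEquivLeft ℤ β E ∣ Polynomial.X :=
    (Irreducible.dvd_comm Polynomial.irreducible_X hE').mp h1
  obtain ⟨Q, hQ⟩ := h2
  have h3 := congrArg (Polynomial.eval₂ (aeval (R := ℤ) x).toRingHom w) hQ
  rw [Polynomial.eval₂_X, Polynomial.eval₂_mul, eval_opt, h, zero_mul] at h3
  exact hw h3

private theorem sep_inl {ι : Type} {ρ : ℕ} (l : MvPolynomial (Fin (ρ + 1) × ι) ℤ) :
    sep ι ρ (rename Sum.inl l) = Polynomial.C (rename Sum.inl l) := by
  induction l using MvPolynomial.induction_on with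
  | C a => simp [sep]
  | add p q hp hq => rw [map_add, map_add, hp, hq, map_add, map_add]
  | mul_X p i hp =>
    rw [map_mul, map_mul, hp, map_mul, map_mul]
    congr 1
    simp [sep]

/-- An irreducible factor which vanishes at a given point. -/
private theorem exists_factor {σ : Type} (P : MvPolynomial σ ℤ) (hP : P ≠ 0) (v : σ → ℂ)
    (h : aeval v P = 0) : ∃ π, Irreducible π ∧ π ∣ P ∧ aeval v π = 0 := by
  obtain ⟨s, hs, u, hu⟩ := WfDvdMonoid.exists_factors P hP
  have h1 : aeval v s.prod = 0 := by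
    rw [← hu, map_mul] at h
    refine (mul_eq_zero.mp h).resolve_right ?_
    exact (u.isUnit.map (aeval v : MvPolynomial σ ℤ →ₐ[ℤ] ℂ)).ne_zero
  rw [map_multiset_prod, Multiset.prod_eq_zero_iff, Multiset.mem_map] at h1
  obtain ⟨π, hπ, h2⟩ := h1
  refine ⟨π, hs π hπ, ?_, h2⟩
  rw [← hu]
  exact (Multiset.dvd_prod hπ).mul_right _

private theorem alg_mono' {E E' : IntermediateField ℚ ℂ}
    (h : E ≤ E') {y : ℂ} (hy : IsAlgebraic E y) : IsAlgebraic E' y := by
  obtain ⟨p, hp0, hp⟩ := hy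
  refine ⟨p.map (IntermediateField.inclusion h : E →+* E'), ?_, ?_⟩
  · intro h1
    refine hp0 (Polynomial.map_injective _ (IntermediateField.inclusion h : E →+* E').injective ?_)
    rw [h1, Polynomial.map_zero]
  · rw [Polynomial.aeval_def, Polynomial.eval₂_map]
    exact hp

/-- The transcendence degree is at most the number of generators (of a power basis). -/
private theorem indep_le (hTrE : S_TrE) (hTrI : S_TrI) {κ κ' : Type} [Fintype κ] [Fintype κ']
    (z : κ → ℂ) (y : κ' → ℂ) (hy : AlgebraicIndependent ℚ y)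
    (h : ∀ i, IsAlgebraic (IntermediateField.adjoin ℚ (Set.range z)) (y i)) :
    Fintype.card κ' ≤ Fintype.card κ := by
  obtain ⟨r, hr⟩ := hTrE κ ℂ z
  have h1 := (hTrI κ ℂ z r (Fintype.card κ') (y ∘ (Fintype.equivFin κ').symm) hr
    (hy.comp _ (Fintype.equivFin κ').symm.injective) (fun i => h _)).1
  obtain ⟨b, hb, -⟩ := hr
  have hinj : Function.Injective b := fun i j hij => by
    refine hb.injective ?_
    rw [Function.comp_apply, Function.comp_apply, hij]
  have h2 := Fintype.card_le_of_injective b hinj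
  rw [Fintype.card_fin] at h2
  exact h1.trans h2

theorem pP7 (hP4 : S_P4) (hP5 : S_P5) (hA1v : S_A1v) (hA2 : S_A2) (hClr : S_Clr) (hGau : S_Gau)
    (hExt : S_Ext) (hTrE : S_TrE) (hTrI : S_TrI) (hGnx : S_Gnx) : S_P7 := by
  intro ι _ _ ρ ξ f E hTr hf hE hEv u t hgen hut
  -- `u` is algebraically independent over `ℚ` and over `ℤ`
  have huQ : AlgebraicIndependent ℚ u :=
    hgen.restrictScalars (K := IntermediateField.adjoin ℚ (Set.range ξ))
      (algebraMap ℚ (IntermediateField.adjoin ℚ (Set.range ξ))).injective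
  have huZ : AlgebraicIndependent ℤ u :=
    huQ.restrictScalars (K := ℚ) (algebraMap ℤ ℚ).injective_int
  have hE0 : e0 E ≠ 0 := e0_ne_zero hE _ _ hf (hEv u)
  have hut' : aeval (Sum.elim u t) (e0 E) = 0 := by
    rw [aeval_e0]
    exact hut
  obtain ⟨π, hπ, hπE, hπ0⟩ := exists_factor (e0 E) hE0 _ hut'
  have hπl : ∀ l : MvPolynomial (Fin (ρ + 1) × ι) ℤ, rename Sum.inl l ≠ π := by
    intro l hl
    rw [← hl, aeval_rename, Sum.elim_comp_inl] at hπ0
    have h1 := (algebraicIndependent_iff.mp huZ) l hπ0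
    rw [h1, map_zero] at hl
    exact hπ.ne_zero hl.symm
  obtain ⟨l, hl⟩ := hP5 ι ρ ξ f E π hTr hf hE hEv hπ hπE hπl
  have hsepπ : sep ι ρ π ≠ 0 := by
    intro h
    exact hπ.ne_zero ((sep ι ρ).injective (by rw [h, map_zero]))
  have hl0 : l ≠ 0 := by
    rintro rfl
    rw [map_zero, Polynomial.leadingCoeff_eq_zero] at hl
    exact hsepπ hl
  have hlu : aeval u l ≠ 0 := fun h => hl0 ((algebraicIndependent_iff.mp huZ) l h)
  have hdeg : (sep ι ρ π).natDegree ≠ 0 := by
    intro h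
    have h1 : sep ι ρ π = Polynomial.C (rename Sum.inl l) := by
      rw [← hl, Polynomial.leadingCoeff, h]
      exact Polynomial.eq_C_of_natDegree_eq_zero h
    rw [← sep_inl] at h1
    exact hπl l ((sep ι ρ).injective h1).symm
  -- the generic point of `π`
  obtain ⟨T2, -, hT2⟩ := hGnx (ι ⊕ (Fin (ρ + 1) × ι)) (Fin ρ) (Sum.elim ξ u) 0 1 one_pos
  let q : Polynomial ℂ := (sep ι ρ π).map (aeval (R := ℤ) (Sum.elim u T2)).toRingHom
  have hlc : (aeval (R := ℤ) (Sum.elim u T2)).toRingHom (sep ι ρ π).leadingCoeff ≠ 0 := by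
    rw [hl]
    change aeval (Sum.elim u T2) (rename Sum.inl l) ≠ 0
    rw [aeval_rename, Sum.elim_comp_inl]
    exact hlu
  have hqdeg : q.degree ≠ 0 := by
    rw [Polynomial.degree_map_eq_of_leadingCoeff_ne_zero _ hlc]
    intro h
    exact hdeg (Polynomial.natDegree_eq_of_degree_eq_some h)
  obtain ⟨T0, hT0⟩ := IsAlgClosed.exists_root q hqdeg
  obtain ⟨T', hT'⟩ : ∃ T' : Fin (ρ + 1) → ℂ, T' = Fin.cons T0 T2 := ⟨_, rfl⟩
  have hT'0 : T' 0 = T0 := by rw [hT']; rfl
  have hT's : (fun i : Fin ρ => T' i.succ) = T2 := by rw [hT']; rfl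
  have hπT : aeval (Sum.elim u T') π = 0 := by
    rw [← eval_sep, hT's, hT'0]
    rw [Polynomial.IsRoot, Polynomial.eval_map] at hT0
    exact hT0
  have hET : aeval (Sum.elim u T') (e0 E) = 0 := by
    obtain ⟨c, hc⟩ := hπE
    rw [hc, map_mul, hπT, zero_mul]
  obtain ⟨ξ', hξ', hfξ', hψ'⟩ := hP4 ι ℂ (ρ + 1) ξ f E hTr hE hEv u T' huQ hET
  -- independence of `(u, T2)`
  have huT2 : AlgebraicIndependent ℚ (Sum.elim u T2) := by
    have h1 : AlgebraicIndependent ℚ (Sum.elim T2 u) := by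
      refine huQ.sumElim_of_tower (S := IntermediateField.adjoin ℚ (Set.range (Sum.elim ξ u)))
        ?_ hT2
      rintro _ ⟨p, rfl⟩
      exact ⟨⟨u p, IntermediateField.subset_adjoin ℚ _ ⟨Sum.inr p, rfl⟩⟩, rfl⟩
    have h2 := h1.comp Sum.swap Sum.swap_leftInverse.injective
    have h3 : Sum.elim T2 u ∘ Sum.swap = Sum.elim u T2 := by
      funext i
      cases i <;> rfl
    rw [h3] at h2
    exact h2
  have hψs : ∀ i : Fin ρ, psi u ξ' i.succ = T2 i := by
    intro i
    rw [hψ', ← hT's]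
  -- the transcendence degree of `ξ'`
  have hTrξ' : Tr ξ' ρ := by
    obtain ⟨r', hr'⟩ := hTrE ι ℂ ξ'
    have h1 : r' < ρ + 1 := hA2 ι ℂ ℂ ξ ξ' (ρ + 1) r' f hξ' hTr hr' hf hfξ'
    obtain ⟨b, hb, hbA⟩ := hr'
    have hle : IntermediateField.adjoin ℚ (Set.range (ξ' ∘ b)) ≤
        IntermediateField.adjoin ℚ (Set.range (Sum.elim u (ξ' ∘ b))) := by
      refine IntermediateField.adjoin.mono _ _ _ ?_
      rintro _ ⟨i, rfl⟩
      exact ⟨Sum.inr i, rfl⟩
    have hualg : ∀ p, u p ∈ algebraicClosure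
        (IntermediateField.adjoin ℚ (Set.range (Sum.elim u (ξ' ∘ b)))) ℂ := by
      intro p
      refine mem_algebraicClosure_iff.mpr ?_
      exact isAlgebraic_algebraMap
        (⟨u p, IntermediateField.subset_adjoin ℚ _ ⟨Sum.inl p, rfl⟩⟩ :
          IntermediateField.adjoin ℚ (Set.range (Sum.elim u (ξ' ∘ b))))
    have hξalg : ∀ i, ξ' i ∈ algebraicClosure
        (IntermediateField.adjoin ℚ (Set.range (Sum.elim u (ξ' ∘ b)))) ℂ := fun i =>
      mem_algebraicClosure_iff.mpr (alg_mono' hle (hbA i))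
    have h2 := indep_le hTrE hTrI (Sum.elim u (ξ' ∘ b)) (Sum.elim u T2) huT2 (by
      rintro (p | i)
      · exact mem_algebraicClosure_iff.mp (hualg p)
      · refine mem_algebraicClosure_iff.mp ?_
        rw [Sum.elim_inr, ← hψs i]
        exact sum_mem fun j _ => mul_mem (hualg _) (hξalg j))
    rw [Fintype.card_sum, Fintype.card_sum, Fintype.card_fin, Fintype.card_fin] at h2
    have h3 : r' = ρ := by omega
    subst h3
    exact ⟨b, hb, hbA⟩
  -- specialization of the parameters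
  have hSpc : Spc (Sum.elim u T') (Sum.elim u t) := by
    intro G hG
    have hren : ∀ P : MvPolynomial (BU ι (ρ + 1)) ℤ,
        aeval (ev (T' 0) (Sum.elim u T2)) (rename (sepIdx ι ρ) P) =
          aeval (Sum.elim u T') P := by
      intro P
      rw [aeval_rename]
      congr 1
      have h1 : ev (T' 0) (Sum.elim u T2) ∘ (sepIdx ι ρ) = Sum.elim u T' := by
        funext o
        rcases o with p | i
        · rfl
        · refine Fin.cases ?_ (fun i => ?_) i
          · rfl
          · change T2 i = T' i.succ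
            rw [← hT's]
      rw [h1]
    have hπ' : Irreducible (rename (sepIdx ι ρ) π) :=
      (MulEquiv.irreducible_iff (renameEquiv ℤ (sepIdx ι ρ))).mpr hπ
    have h2 := hGau (BV ι ρ) ℂ (Sum.elim u T2) (T' 0) (rename (sepIdx ι ρ) π)
      (rename (sepIdx ι ρ) G) huT2 hπ' (by rw [hren]; exact hπT) (by rw [hren]; exact hG)
    have h3 : π ∣ G := (map_dvd_iff (renameEquiv ℤ (sepIdx ι ρ))).mp h2
    obtain ⟨c, rfl⟩ := h3
    rw [map_mul, hπ0, zero_mul]
  -- the relations for `ξ'`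
  have hlow : AlgebraicIndependent ℚ (lower u) := by
    refine huQ.comp (fun p : Fin ρ × ι => (p.1.succ, p.2)) ?_
    rintro ⟨i, j⟩ ⟨i', j'⟩ h
    simp only [Prod.mk.injEq, Fin.succ_inj] at h
    exact Prod.ext h.1 h.2
  have hψl : psi (lower u) ξ' = T2 := by
    funext i
    exact hψs i
  let θ : (Fin ρ × ι) ⊕ Fin ρ → BU ι (ρ + 1) :=
    Sum.elim (fun p => Sum.inl (p.1.succ, p.2)) (fun i => Sum.inr i.succ)
  have hrel : ∀ j : ι, ∃ P : Polynomial (MvPolynomial (BU ι (ρ + 1)) ℤ),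
      aeval (Sum.elim u t) P.leadingCoeff ≠ 0 ∧
      Polynomial.eval₂ (aeval (R := ℤ) (Sum.elim u T')).toRingHom (ξ' j) P = 0 := by
    intro j
    have h1 := hA1v ι ℂ ρ ξ' (lower u) hlow ⟨ρ, le_rfl, hTrξ'⟩ j
    rw [hψl] at h1
    obtain ⟨P, m, hPm, hm, hP⟩ := hClr ℂ (Fin ρ × ι) ρ (lower u) T2 (ξ' j) h1
    have hval : ∀ s : Fin (ρ + 1) → ℂ, aeval (Sum.elim u s) (rename θ P.leadingCoeff) =
        aeval (lower u) m := by
      intro s
      rw [hPm, aeval_rename, aeval_rename]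
      rfl
    have hne : (rename θ : MvPolynomial ((Fin ρ × ι) ⊕ Fin ρ) ℤ →ₐ[ℤ] _).toRingHom
        P.leadingCoeff ≠ 0 := by
      intro h
      have h2 := hval t
      change aeval (Sum.elim u t) ((rename θ : MvPolynomial ((Fin ρ × ι) ⊕ Fin ρ) ℤ →ₐ[ℤ]
        _).toRingHom P.leadingCoeff) = _ at h2
      rw [h, map_zero] at h2
      exact hm h2.symm
    refine ⟨P.map (rename θ : MvPolynomial ((Fin ρ × ι) ⊕ Fin ρ) ℤ →ₐ[ℤ] _).toRingHom, ?_, ?_⟩
    · rw [Polynomial.leadingCoeff_map_of_leadingCoeff_ne_zero _ hne]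
      change aeval (Sum.elim u t) (rename θ P.leadingCoeff) ≠ 0
      rw [hval]
      exact hm
    · rw [Polynomial.eval₂_map]
      have h3 : ((aeval (R := ℤ) (Sum.elim u T')).toRingHom.comp
          (rename θ : MvPolynomial ((Fin ρ × ι) ⊕ Fin ρ) ℤ →ₐ[ℤ] _).toRingHom) =
          (aeval (R := ℤ) (Sum.elim (lower u) T2)).toRingHom := by
        refine RingHom.ext fun Q => ?_
        change aeval (Sum.elim u T') (rename θ Q) = aeval (Sum.elim (lower u) T2) Q
        rw [aeval_rename]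
        congr 1
        have h4 : Sum.elim u T' ∘ θ = Sum.elim (lower u) T2 := by
          funext o
          rcases o with p | i
          · rfl
          · change T' i.succ = T2 i
            rw [← hT's]
        rw [h4]
      rw [h3]
      exact hP
  obtain ⟨ξ'', hξ''⟩ := hExt (BU ι (ρ + 1)) ι ℂ ℂ (Sum.elim u T') (Sum.elim u t) ξ' hSpc hrel
  refine ⟨ξ', ξ'', hξ', hfξ', hTrξ', ?_, ?_⟩
  · have h1 := hξ''.comp Sum.inr
    rw [Sum.elim_comp_inr, Sum.elim_comp_inr] at h1
    exact h1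
  · funext i
    have h1 := hξ'' (∑ j, X (Sum.inl (Sum.inl (i, j))) * X (Sum.inr j) -
      X (Sum.inl (Sum.inr i))) (by
        simp only [map_sub, map_sum, map_mul, aeval_X, Sum.elim_inl, Sum.elim_inr]
        rw [← hψ']
        exact sub_self _)
    simp only [map_sub, map_sum, map_mul, aeval_X, Sum.elim_inl, Sum.elim_inr] at h1
    exact sub_eq_zero.mp h1

end Pool.Agent.SMQ
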