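import Pool.Agent.Lib.MP_452a87_nt.A.Aux12

/-!
# Part A: existence of the transcendence degree (helper12)
-/

set_option autoImplicit false

namespace Pool.Agent.SMQ

theorem pTrE : S_TrE := fun _ _ _ _ _ x => Aux12.exists_Tr x

end Pool.Agent.SMQ
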