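import Pool.Agent.Lib.MP_452a87_nt.A.Aux12

/-!
# Part A: independent families in the algebraic closure (helper12)
-/

set_option autoImplicit false

namespace Pool.Agent.SMQ

theorem pTrI : S_TrI := by
  intro ι Ω _ _ x r e z hr hz hzx
  have h0 := Aux12.Tr.rk hr
  have h1 := Aux12.card_le hz (S := Set.range x) fun i => Aux12.alg_iff.1 (hzx i)
  rw [h0] at h1
  refine ⟨by exact_mod_cast h1, fun he i => ?_⟩
  rw [Aux12.alg_iff]
  have h2 : Set.range z ⊆ (Aux12.Mt Ω).closure (Set.range x) :=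
    Set.range_subset_iff.2 fun i => Aux12.alg_iff.1 (hzx i)
  have h3 := ((Aux12.Mt Ω).isRkFinite_of_finite (Set.finite_range z)).closure_eq_closure_of_subset_of_eRk_ge_eRk
    h2 (by rw [Matroid.eRk_closure_eq, h0, (Aux12.ind_range hz).eRk_eq_encard,
      Aux12.enc_range hz.injective, he])
  rw [h3, Matroid.closure_closure]
  exact Aux12.mem_cl ⟨i, rfl⟩

end Pool.Agent.SMQ
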