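import Pool.Agent.Lib.MP_452a87_nt.A.Aux12

/-!
# Part A: comparison with a finite set of generators (helper12)
-/

set_option autoImplicit false

namespace Pool.Agent.SMQ

theorem pTrU : S_TrU := by
  intro ι κ Ω _ _ _ x z r hr hz
  obtain ⟨b, hb, -⟩ := hr
  have h1 := Aux12.card_le hb (S := Set.range z) fun i => Aux12.alg_iff.1 (hz (b i))
  have h2 : (Set.range z).encard ≤ (Nat.card κ : ℕ∞) := by
    rw [← Set.image_univ]
    refine (Set.encard_image_le _ _).trans ?_
    rw [Set.encard_univ, ENat.card_eq_coe_natCard]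
  exact_mod_cast h1.trans (((Aux12.Mt Ω).eRk_le_encard _).trans h2)

end Pool.Agent.SMQ
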